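import Mathlib

set_option autoImplicit false

namespace Pool.Agent.Lib.helper2.ChromRel

def Mono {α V C : Type} (G : SimpleGraph α) (H : SimpleGraph V) (φ : V → C) : Prop :=
  ∃ c, ∃ g : α → V, Function.Injective g ∧ (∀ x, φ (g x) = c) ∧
    ∀ x y, H.Adj (g x) (g y) ↔ G.Adj x y

lemma free_iff {k : ℕ} {α V : Type} (G : SimpleGraph α) (H : SimpleGraph V) :
    (∃ c : V → Fin k, ∀ i : Fin k, IsEmpty (G ↪g H.induce {v | c v = i})) ↔
      ∃ φ : V → Fin k, ¬ Mono G H φ := by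
  refine exists_congr fun φ => ⟨fun h => ?_, fun h i => ⟨fun e => h ?_⟩⟩
  · rintro ⟨c, g, h1, h2, h3⟩
    exact (h c).false ⟨⟨fun x => ⟨g x, h2 x⟩, fun x y hxy => h1 (congrArg Subtype.val hxy)⟩,
      fun {x y} => h3 x y⟩
  · exact ⟨i, fun x => (e x).1, fun x y hxy => e.injective (Subtype.ext hxy), fun x => (e x).2,
      fun x y => e.map_rel_iff⟩

def paw : SimpleGraph (Fin 4) := SimpleGraph.fromRel (fun x y => (x = 0 ∧ y ≠ 0) ∨ (x = 1 ∧ y = 2))

instance : DecidableRel paw.Adj := fun x y => by unfold paw; infer_instance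

abbrev PV : Type := {p : Fin 4097 × Fin 4097 // p.1 < p.2}

def big : SimpleGraph (Fin 7 ⊕ PV) where
  Adj
    | Sum.inl u, Sum.inl v => u ≠ v
    | Sum.inl u, Sum.inr _ => u = 0
    | Sum.inr _, Sum.inl u => u = 0
    | Sum.inr p, Sum.inr q => p.1.2 = q.1.1 ∨ q.1.2 = p.1.1
  symm := ⟨by rintro (u | u) (v | v) h <;> first | exact h | exact Ne.symm h | exact Or.symm h⟩
  loopless := ⟨by
    rintro (u | u) h
    · exact h rfl
    · exact u.2.ne (h.elim Eq.symm Eq.symm)⟩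

lemma paw_of {V C : Type} (H : SimpleGraph V) (φ : V → C) (a b c d : V) (h1 : φ a = φ b)
    (h2 : φ c = φ b) (h3 : φ d = φ b) (ab : H.Adj a b) (ac : H.Adj a c) (bc : H.Adj b c)
    (ad : H.Adj a d) (bd : ¬ H.Adj b d) (cd : ¬ H.Adj c d) : Mono paw H φ := by
  have n1 : b ≠ d := by rintro rfl; exact cd bc.symm
  have n2 : c ≠ d := by rintro rfl; exact bd bc
  refine ⟨φ b, ![a, b, c, d], ?_, ?_, ?_⟩
  · have := ab.ne; have := ac.ne; have := bc.ne; have := ad.ne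
    intro x y; fin_cases x <;> fin_cases y <;> simp_all [eq_comm]
  · intro x; fin_cases x <;> simp [*]
  · have := ab.symm; have := ac.symm; have := bc.symm; have := ad.symm
    have : ¬ H.Adj d b := fun h => bd h.symm
    have : ¬ H.Adj d c := fun h => cd h.symm
    intro x y; fin_cases x <;> fin_cases y <;> simp [*, paw]

def Pth (c : PV → Fin 3) (i : Fin 3) : ℕ → Fin 4097 → Prop
  | 0, _ => True
  | k + 1, j => ∃ p : PV, p.1.2 = j ∧ c p = i ∧ Pth c i k p.1.1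

lemma es (c : PV → Fin 3) : ∃ i j, Pth c i 4 j := by
  classical
  obtain ⟨x, y, hne, h⟩ := Fintype.exists_ne_map_eq_of_card_lt
    (fun (j : Fin 4097) (i : Fin 3) (k : Fin 4) => decide (Pth c i k j)) (by simp)
  wlog hxy : x < y generalizing x y
  · exact this y x hne.symm h.symm (lt_of_le_of_ne (not_lt.1 hxy) hne.symm)
  have e : ∀ (i : Fin 3) (k : Fin 4), Pth c i k x ↔ Pth c i k y := fun i k => by
    simpa using congrFun (congrFun h i) k
  have s : ∀ k, Pth c (c ⟨(x, y), hxy⟩) k x → Pth c (c ⟨(x, y), hxy⟩) (k + 1) y :=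
    fun k hk => ⟨⟨(x, y), hxy⟩, rfl, rfl, hk⟩
  exact ⟨_, y, s 3 ((e _ 3).2 (s 2 ((e _ 2).2 (s 1 ((e _ 1).2 (s 0 trivial))))))⟩

lemma three_two {V : Type} (H : SimpleGraph V) (φ : V → Fin 3) (h : ¬ Mono paw H φ) :
    ∃ ψ : V → Fin 2, ¬ Mono big H ψ := by
  classical
  refine ⟨fun v => if ∃ a b, φ a = φ v ∧ φ b = φ v ∧ H.Adj v a ∧ H.Adj v b ∧ H.Adj a b then 1 else 0, ?_⟩
  rintro ⟨c, g, -, g2, g3⟩
  beta_reduce at g2
  obtain ⟨i, hi⟩ := Fintype.exists_lt_card_fiber_of_mul_lt_card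
    (fun t : Fin 7 => φ (g (Sum.inl t))) (n := 2) (by simp)
  obtain ⟨x, y, z, hx, hy, hz, xy, xz, yz⟩ := Finset.two_lt_card_iff.1 hi
  simp only [Finset.mem_filter, Finset.mem_univ, true_and] at hx hy hz
  have c1 : c = 1 := by
    rw [← g2 (Sum.inl x), if_pos ⟨_, _, hy.trans hx.symm, hz.trans hx.symm, (g3 _ _).2 xy,
      (g3 _ _).2 xz, (g3 _ _).2 yz⟩]
  obtain ⟨i, j, w, w1, w2, z, z1, z2, y, y1, y2, x, x1, x2, -⟩ := es (fun p => φ (g (Sum.inr p)))
  have := x.2; have := y.2; have := z.2; have := w.2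
  have xy : H.Adj (g (Sum.inr x)) (g (Sum.inr y)) := (g3 _ _).2 (Or.inl x1)
  have yz : H.Adj (g (Sum.inr y)) (g (Sum.inr z)) := (g3 _ _).2 (Or.inl y1)
  have zw : H.Adj (g (Sum.inr z)) (g (Sum.inr w)) := (g3 _ _).2 (Or.inl z1)
  have xz : ¬ H.Adj (g (Sum.inr x)) (g (Sum.inr z)) := fun h => ((g3 _ _).1 h).elim (by omega) (by omega)
  have yw : ¬ H.Adj (g (Sum.inr y)) (g (Sum.inr w)) := fun h => ((g3 _ _).1 h).elim (by omega) (by omega)
  have xw : ¬ H.Adj (g (Sum.inr x)) (g (Sum.inr w)) := fun h => ((g3 _ _).1 h).elim (by omega) (by omega)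
  have hy := g2 (Sum.inr y)
  simp only at x2 y2 z2 w2
  generalize g (Sum.inr x) = X at *
  generalize g (Sum.inr y) = Y at *
  generalize g (Sum.inr z) = Z at *
  generalize g (Sum.inr w) = W at *
  rw [c1] at hy
  split_ifs at hy with ht
  swap
  · simp at hy
  obtain ⟨a, b, a1, b1, ya, yb, ab⟩ := ht
  have : ∃ t, φ t = i ∧ H.Adj Y t ∧ H.Adj Z t := by
    by_cases za : H.Adj a Z
    · exact ⟨a, a1.trans y2, ya, za.symm⟩
    by_cases zb : H.Adj b Z
    · exact ⟨b, b1.trans y2, yb, zb.symm⟩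
    exact absurd (paw_of H φ Y a b Z a1.symm (b1.trans a1.symm) (by rw [z2, a1, y2]) ya yb ab yz za zb) h
  obtain ⟨t, t1, yt, zt⟩ := this
  have tx : H.Adj t X := by
    by_contra hh
    exact h (paw_of H φ Y Z t X (y2.trans z2.symm) (t1.trans z2.symm) (x2.trans z2.symm) yz yt zt
      xy.symm (fun h => xz h.symm) hh)
  have tw : H.Adj t W := by
    by_contra hh
    exact h (paw_of H φ Z Y t W (z2.trans y2.symm) (t1.trans y2.symm) (w2.trans y2.symm) yz.symm zt yt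
      zw yw hh)
  exact h (paw_of H φ t X Y W (t1.trans x2.symm) (y2.trans x2.symm) (w2.trans x2.symm) tx yt.symm xy
    tw xw yw)

lemma big_paw2 : ∃ φ : Fin 7 ⊕ PV → Fin 2, ¬ Mono paw big φ := by
  refine ⟨Sum.elim (fun _ => 0) (fun _ => 1), ?_⟩
  rintro ⟨c, g, g1, g2, g3⟩
  have a01 := (g3 0 1).2 (by decide)
  have a02 := (g3 0 2).2 (by decide)
  have a12 := (g3 1 2).2 (by decide)
  have a13 : ¬ big.Adj (g 1) (g 3) := fun h => absurd ((g3 1 3).1 h) (by decide)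
  have n13 : g 1 ≠ g 3 := fun h => absurd (g1 h) (by decide)
  have c0 := (g2 0).trans (g2 1).symm
  have c2 := (g2 2).trans (g2 1).symm
  have c3 := (g2 3).trans (g2 1).symm
  revert a01 a02 a12 a13 n13 c0 c2 c3
  rcases g 0 with x | x <;> rcases g 1 with y | y <;> rcases g 2 with z | z <;>
    rcases g 3 with w | w <;> simp [big]
  have := x.2; have := y.2; have := z.2
  omega

def pv : PV := ⟨(0, 1), by decide⟩

lemma big_paw1 {C : Type} [Subsingleton C] (φ : Fin 7 ⊕ PV → C) : Mono paw big φ :=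
  paw_of big φ (Sum.inl 0) (Sum.inl 1) (Sum.inl 2) (Sum.inr pv) (Subsingleton.elim _ _)
    (Subsingleton.elim _ _) (Subsingleton.elim _ _) (by simp [big]) (by simp [big]) (by simp [big])
    (by simp [big]) (by simp [big]) (by simp [big])

lemma self2 {α : Type} [Finite α] [Nontrivial α] (G : SimpleGraph α) :
    ∃ φ : α → Fin 2, ¬ Mono G G φ := by
  classical
  obtain ⟨a, b, hab⟩ := exists_pair_ne α
  refine ⟨fun v => if v = a then 0 else 1, ?_⟩
  rintro ⟨c, g, g1, g2, -⟩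
  obtain ⟨x, rfl⟩ := Finite.surjective_of_injective g1 a
  obtain ⟨y, rfl⟩ := Finite.surjective_of_injective g1 b
  have := (g2 x).trans (g2 y).symm
  simp [hab.symm] at this

lemma paw_big : ∃ φ : Fin 4 → Fin 2, ¬ Mono big paw φ := by
  refine ⟨fun _ => 0, ?_⟩
  rintro ⟨c, g, g1, -⟩
  have := Fintype.card_le_of_injective _ (g1.comp Sum.inl_injective)
  simp at this

lemma two_eq {V : Type} [Nonempty V] (S : Set ℕ) (Q : ∀ k, (V → Fin k) → Prop)
    (hS : ∀ k, k ∈ S ↔ ∃ φ, ¬ Q k φ) (h2 : ∃ φ, ¬ Q 2 φ) (h1 : ∀ φ, Q 1 φ) : sInf S = 2 := by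
  apply IsLeast.csInf_eq
  refine ⟨(hS 2).2 h2, fun k hk => ?_⟩
  obtain ⟨φ, hφ⟩ := (hS k).1 hk
  rcases k with _ | _ | k
  · exact (φ (Classical.arbitrary V)).elim0
  · exact absurd (h1 φ) hφ
  · omega

lemma paw_conn : paw.Connected := by
  refine (SimpleGraph.connected_iff_exists_forall_reachable _).2 ⟨0, fun w => ?_⟩
  by_cases h : w = 0
  · rw [h]
  · exact SimpleGraph.Adj.reachable (by revert w; decide)

lemma big_conn : big.Connected := by
  refine (SimpleGraph.connected_iff_exists_forall_reachable _).2 ⟨Sum.inl 0, fun w => ?_⟩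
  rcases w with w | w
  · by_cases h : w = 0
    · rw [h]
    · exact SimpleGraph.Adj.reachable (Ne.symm h)
  · exact SimpleGraph.Adj.reachable (rfl : (0 : Fin 7) = 0)

end Pool.Agent.Lib.helper2.ChromRel
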