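import Mathlib

set_option autoImplicit false

namespace Pool.Agent.Lib.H2DRC

open Finset

/-- Dependent random choice, counting form. -/
lemma drc_count {ι : Type*} [DecidableEq ι] (n t : ℕ) (hn : 0 < n) (J : Finset ι)
    (A : ι → Finset (Fin n)) (c ε : ℝ) (hc : 0 ≤ c) (hε : 0 ≤ ε)
    (hA : ∀ k ∈ J, c * n ≤ (A k).card) :
    ∃ I ⊆ J, (∀ i ∈ I, ∀ j ∈ I, i ≠ j → ε * n < ((A i ∩ A j).card : ℝ)) ∧
      (J.card : ℝ) * c ^ t - (J.card : ℝ) ^ 2 * ε ^ t ≤ I.card := by
  classical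
  set B : Finset (ι × ι) :=
    (J ×ˢ J).filter (fun p => p.1 ≠ p.2 ∧ ((A p.1 ∩ A p.2).card : ℝ) ≤ ε * n) with hB
  let U : (Fin t → Fin n) → Finset ι := fun x => J.filter (fun k => ∀ j, x j ∈ A k)
  let V : (Fin t → Fin n) → Finset (ι × ι) := fun x => B.filter (fun p => ∀ j, x j ∈ A p.1 ∩ A p.2)
  have hpi : ∀ S : Finset (Fin n),
      ((univ : Finset (Fin t → Fin n)).filter (fun x => ∀ j, x j ∈ S)).card = S.card ^ t := by
    intro S
    have : (univ : Finset (Fin t → Fin n)).filter (fun x => ∀ j, x j ∈ S) =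
        Fintype.piFinset (fun _ => S) := by
      ext x
      simp [Fintype.mem_piFinset]
    rw [this, Fintype.card_piFinset]
    simp
  have hU : ∑ x, ((U x).card : ℝ) = ∑ k ∈ J, ((A k).card : ℝ) ^ t := by
    have : ∀ x, ((U x).card : ℝ) = ∑ k ∈ J, if (∀ j, x j ∈ A k) then (1 : ℝ) else 0 := by
      intro x
      simp [U]
    simp_rw [this]
    rw [sum_comm]
    refine sum_congr rfl (fun k _ => ?_)
    rw [sum_boole, hpi]
    push_cast
    rfl
  have hV : ∑ x, ((V x).card : ℝ) = ∑ p ∈ B, ((A p.1 ∩ A p.2).card : ℝ) ^ t := by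
    have : ∀ x, ((V x).card : ℝ) =
        ∑ p ∈ B, if (∀ j, x j ∈ A p.1 ∩ A p.2) then (1 : ℝ) else 0 := by
      intro x
      rw [sum_boole]
    simp_rw [this]
    rw [sum_comm]
    refine sum_congr rfl (fun k _ => ?_)
    rw [sum_boole, hpi]
    push_cast
    rfl
  have hU' : (J.card : ℝ) * (c * n) ^ t ≤ ∑ x, ((U x).card : ℝ) := by
    rw [hU]
    have := card_nsmul_le_sum J (fun k => ((A k).card : ℝ) ^ t) ((c * n) ^ t) (fun k hk => by
      have := hA k hk
      gcongr)
    simpa using this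
  have hV' : ∑ x, ((V x).card : ℝ) ≤ (J.card : ℝ) ^ 2 * (ε * n) ^ t := by
    rw [hV]
    have h1 := sum_le_card_nsmul B (fun p => ((A p.1 ∩ A p.2).card : ℝ) ^ t) ((ε * n) ^ t)
      (fun p hp => by
        have := (mem_filter.mp hp).2.2
        gcongr)
    have h2 : (B.card : ℝ) ≤ (J.card : ℝ) ^ 2 := by
      have := card_filter_le (J ×ˢ J)
        (fun p => p.1 ≠ p.2 ∧ ((A p.1 ∩ A p.2).card : ℝ) ≤ ε * n)
      rw [card_product] at this
      rw [sq]
      exact_mod_cast this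
    rw [nsmul_eq_mul] at h1
    refine h1.trans ?_
    gcongr
  have : Nonempty (Fin n) := ⟨⟨0, hn⟩⟩
  have hex : ∃ x ∈ (univ : Finset (Fin t → Fin n)),
      (J.card : ℝ) * c ^ t - (J.card : ℝ) ^ 2 * ε ^ t ≤ ((U x).card : ℝ) - (V x).card := by
    apply exists_le_of_sum_le univ_nonempty
    rw [sum_const, sum_sub_distrib, card_univ, Fintype.card_fun, Fintype.card_fin,
      Fintype.card_fin, nsmul_eq_mul]
    push_cast
    rw [mul_pow] at hU' hV'
    nlinarith
  obtain ⟨x, -, hx⟩ := hex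
  refine ⟨U x \ (V x).image Prod.fst, sdiff_subset.trans (filter_subset _ _), ?_, ?_⟩
  · intro i hi j hj hij
    by_contra hle
    push Not at hle
    rw [mem_sdiff] at hi hj
    apply hi.2
    rw [mem_image]
    refine ⟨(i, j), ?_, rfl⟩
    have hi1 := mem_filter.mp hi.1
    have hj1 := mem_filter.mp hj.1
    refine mem_filter.mpr ⟨mem_filter.mpr ⟨mem_product.mpr ⟨hi1.1, hj1.1⟩, hij, hle⟩, ?_⟩
    intro l
    exact mem_inter.mpr ⟨hi1.2 l, hj1.2 l⟩
  · refine hx.trans ?_
    have h1 := le_card_sdiff ((V x).image Prod.fst) (U x)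
    have h2 := card_image_le (s := V x) (f := Prod.fst)
    have : (U x).card ≤ (U x \ (V x).image Prod.fst).card + (V x).card := by omega
    have : ((U x).card : ℝ) ≤ (U x \ (V x).image Prod.fst).card + (V x).card := by
      exact_mod_cast this
    linarith

/-- Dependent random choice, power form. -/
lemma drc {ι : Type*} [DecidableEq ι] (n r : ℕ) (hr : 1 ≤ r) (J : Finset ι) (hJ : J.Nonempty)
    (A : ι → Finset (Fin n)) (c ε : ℝ) (hc : 0 < c) (hc1 : c < 1) (hε : 0 ≤ ε)
    (hεc : ε ≤ c ^ (r + 1)) (hA : ∀ k ∈ J, c * n < (A k).card) :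
    ∃ I ⊆ J, (∀ i ∈ I, ∀ j ∈ I, i ≠ j → ε * n < ((A i ∩ A j).card : ℝ)) ∧
      c / 4 * (J.card : ℝ) ^ (1 - 1 / (r : ℝ)) < I.card := by
  classical
  have hn : 0 < n := by
    obtain ⟨k, hk⟩ := hJ
    have h1 := hA k hk
    have h2 : (A k).card ≤ n := by simpa using card_le_univ (A k)
    rcases Nat.eq_zero_or_pos n with h | h
    · subst h
      have : (A k).card = 0 := by omega
      rw [this] at h1
      simp at h1
    · exact h
  set m : ℝ := (J.card : ℝ) with hm
  have hm1 : 1 ≤ m := by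
    rw [hm]
    exact_mod_cast hJ.card_pos
  have hcr : c ^ r < 1 := pow_lt_one₀ hc.le hc1 (by omega)
  have hex : ∃ t : ℕ, (c ^ r) ^ t ≤ 1 / (2 * m) := by
    obtain ⟨t, ht⟩ := exists_pow_lt_of_lt_one (x := 1 / (2 * m)) (by positivity) hcr
    exact ⟨t, ht.le⟩
  set t := Nat.find hex with ht
  have ht1 : (c ^ r) ^ t ≤ 1 / (2 * m) := Nat.find_spec hex
  have ht0 : t ≠ 0 := by
    intro h
    rw [h, pow_zero, le_div_iff₀ (by positivity)] at ht1
    linarith
  obtain ⟨s, hs⟩ := Nat.exists_eq_succ_of_ne_zero ht0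
  have hs1 : 1 / (2 * m) < (c ^ r) ^ s := by
    have := Nat.find_min hex (m := s) (by omega)
    push Not at this
    exact this
  obtain ⟨I, hIJ, hI, hcard⟩ := drc_count n t hn J A c ε hc.le hε (fun k hk => (hA k hk).le)
  refine ⟨I, hIJ, hI, lt_of_lt_of_le ?_ hcard⟩
  rw [← hm]
  have hε' : ε ^ t ≤ c ^ t * (1 / (2 * m)) := by
    calc ε ^ t ≤ (c ^ (r + 1)) ^ t := by gcongr
      _ = c ^ t * (c ^ r) ^ t := by rw [pow_succ, mul_pow, mul_comm]
      _ ≤ _ := by gcongr
  have h2 : m ^ 2 * ε ^ t ≤ m * c ^ t / 2 := by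
    calc m ^ 2 * ε ^ t ≤ m ^ 2 * (c ^ t * (1 / (2 * m))) := by gcongr
      _ = _ := by field_simp
  have hrpos : (0 : ℝ) < r := by exact_mod_cast hr
  have h3 : (1 / (2 * m)) ^ (1 / (r : ℝ)) < c ^ s := by
    have : c ^ s = ((c ^ r) ^ s) ^ (1 / (r : ℝ)) := by
      rw [← pow_mul, mul_comm, pow_mul, one_div, Real.pow_rpow_inv_natCast (by positivity) (by omega)]
    rw [this]
    exact Real.rpow_lt_rpow (by positivity) hs1 (by positivity)
  have h4 : m ^ (1 - 1 / (r : ℝ)) ≤ 2 * m * (1 / (2 * m)) ^ (1 / (r : ℝ)) := by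
    have e1 : 2 * m * (1 / (2 * m)) ^ (1 / (r : ℝ)) = (2 * m) ^ (1 - 1 / (r : ℝ)) := by
      rw [Real.rpow_sub (by positivity), Real.rpow_one, one_div (2 * m),
        Real.inv_rpow (by positivity), div_eq_mul_inv (2 * m)]
    rw [e1]
    apply Real.rpow_le_rpow (by positivity) (by linarith)
    rw [sub_nonneg, div_le_one hrpos]
    exact_mod_cast hr
  have h5 : c ^ t = c ^ s * c := by rw [hs, pow_succ]
  have h6 : m ^ (1 - 1 / (r : ℝ)) < 2 * m * c ^ s := by
    refine lt_of_le_of_lt h4 ?_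
    gcongr
  rw [h5] at h2 ⊢
  nlinarith

/-- Iterating `drc` gives a colouring with few colours. -/
lemma colour {ι : Type*} [DecidableEq ι] (n r : ℕ) (hr : 1 ≤ r)
    (A : ι → Finset (Fin n)) (c ε : ℝ) (hc : 0 < c) (hc1 : c < 1) (hε : 0 ≤ ε)
    (hεc : ε ≤ c ^ (r + 1)) (J : Finset ι) (hA : ∀ k ∈ J, c * n < (A k).card) :
    ∃ K : ℕ, (K : ℝ) ≤ 4 * r / c * (J.card : ℝ) ^ (1 / (r : ℝ)) ∧ ∃ col : ι → ℕ,
      (∀ i ∈ J, col i < K) ∧
      ∀ i ∈ J, ∀ j ∈ J, i ≠ j → col i = col j → ε * n < ((A i ∩ A j).card : ℝ) := by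
  induction J using Finset.strongInduction with
  | H J ih =>
  rcases J.eq_empty_or_nonempty with rfl | hJ
  · exact ⟨0, by rw [Nat.cast_zero]; positivity, fun _ => 0, by simp, by simp⟩
  obtain ⟨I, hIJ, hI, hcard⟩ := drc n r hr J hJ A c ε hc hc1 hε hεc hA
  have hm1 : (1 : ℝ) ≤ (J.card : ℝ) := by exact_mod_cast hJ.card_pos
  have hIpos : (0 : ℝ) < I.card := lt_of_le_of_lt (by positivity) hcard
  have hIne : I.Nonempty := card_pos.mp (by exact_mod_cast hIpos)
  obtain ⟨K, hK, col, hcol1, hcol2⟩ := ih (J \ I) (sdiff_ssubset hIJ hIne)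
    (fun k hk => hA k (mem_sdiff.mp hk).1)
  refine ⟨K + 1, ?_, fun i => if i ∈ I then K else col i, ?_, ?_⟩
  · have hrpos : (0 : ℝ) < r := by exact_mod_cast hr
    have hr1 : (1 : ℝ) ≤ r := by exact_mod_cast hr
    rw [card_sdiff_of_subset hIJ, Nat.cast_sub (card_le_card hIJ)] at hK
    set m : ℝ := (J.card : ℝ) with hm
    set y : ℝ := (I.card : ℝ) with hy
    have hym : y ≤ m := by
      rw [hm, hy]
      exact_mod_cast card_le_card hIJ
    have e1 : m - y = m * (1 + (-(y / m))) := by field_simp; ring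
    have hle : y / m ≤ 1 := by rw [div_le_one (by positivity)]; exact hym
    have h1 : (1 + (-(y / m))) ^ (1 / (r : ℝ)) ≤ 1 + (1 / (r : ℝ)) * (-(y / m)) :=
      rpow_one_add_le_one_add_mul_self (by linarith) (by positivity)
        (by rw [div_le_one hrpos]; exact hr1)
    have h2 : (m - y) ^ (1 / (r : ℝ)) ≤ m ^ (1 / (r : ℝ)) * (1 + (1 / (r : ℝ)) * (-(y / m))) := by
      rw [e1, Real.mul_rpow (by positivity) (by linarith)]
      gcongr
    have h3 : m ^ (1 / (r : ℝ)) * m ^ (1 - 1 / (r : ℝ)) = m := by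
      rw [← Real.rpow_add (by positivity)]
      simp
    set p : ℝ := m ^ (1 / (r : ℝ)) with hp
    set q : ℝ := m ^ (1 - 1 / (r : ℝ)) with hq
    have hppos : 0 < p := by positivity
    have h4 : c / 4 * m ≤ p * y := by
      rw [← h3]
      nlinarith
    have h5 : 4 * r / c * (p * (1 + (1 / (r : ℝ)) * (-(y / m)))) =
        4 * r / c * p - (p * y) / (c / 4 * m) := by
      field_simp
      ring
    have h6 : 1 ≤ (p * y) / (c / 4 * m) := by
      rw [le_div_iff₀ (by positivity)]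
      linarith
    have h7 : 4 * r / c * (m - y) ^ (1 / (r : ℝ)) ≤
        4 * r / c * (p * (1 + (1 / (r : ℝ)) * (-(y / m)))) := by gcongr
    push_cast
    linarith
  · intro i hi
    by_cases h : i ∈ I
    · simp [h]
    · have := hcol1 i (mem_sdiff.mpr ⟨hi, h⟩)
      simp only [h, if_false]
      omega
  · intro i hi j hj hij hcc
    by_cases h : i ∈ I <;> by_cases h' : j ∈ I
    · exact hI i h j h' hij
    · have := hcol1 j (mem_sdiff.mpr ⟨hj, h'⟩)
      simp only [h, h', if_true, if_false] at hcc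
      omega
    · have := hcol1 i (mem_sdiff.mpr ⟨hi, h⟩)
      simp only [h, h', if_true, if_false] at hcc
      omega
    · simp only [h, h', if_false] at hcc
      exact hcol2 i (mem_sdiff.mpr ⟨hi, h⟩) j (mem_sdiff.mpr ⟨hj, h'⟩) hij hcc

/-- Colouring with at most `(4r/c) min(m,2^n)^(1/r)` colours. -/
lemma colour_min (n m r : ℕ) (hr : 1 ≤ r)
    (A : Fin m → Finset (Fin n)) (c ε : ℝ) (hc : 0 < c) (hc1 : c < 1) (hε : 0 ≤ ε)
    (hεc : ε ≤ c ^ (r + 1)) (hA : ∀ k, c * n < (A k).card) :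
    ∃ K : ℕ, (K : ℝ) ≤ 4 * r / c * ((min m (2 ^ n) : ℕ) : ℝ) ^ (1 / (r : ℝ)) ∧
      ∃ col : Fin m → ℕ, (∀ i, col i < K) ∧
      ∀ i j, col i = col j → ε * n < ((A i ∩ A j).card : ℝ) := by
  obtain ⟨K, hK, col, h1, h2⟩ := colour n r hr (fun S : Finset (Fin n) => S) c ε hc hc1 hε hεc
    (univ.image A) (by
      intro S hS
      obtain ⟨k, -, rfl⟩ := mem_image.mp hS
      exact hA k)
  refine ⟨K, hK.trans ?_, fun i => col (A i), fun i => h1 _ (mem_image_of_mem _ (mem_univ i)), ?_⟩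
  · have hle : (univ.image A).card ≤ min m (2 ^ n) := by
      refine le_min ?_ ?_
      · simpa using card_image_le (s := (univ : Finset (Fin m))) (f := A)
      · simpa using card_le_univ (univ.image A)
    have : ((univ.image A).card : ℝ) ≤ ((min m (2 ^ n) : ℕ) : ℝ) := by exact_mod_cast hle
    gcongr
  · intro i j hij
    by_cases h : A i = A j
    · rw [← h, inter_self]
      refine lt_of_le_of_lt ?_ (hA i)
      have : c ^ (r + 1) ≤ c := pow_le_of_le_one hc.le hc1.le (by omega)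
      have : ε ≤ c := by linarith
      gcongr
    · exact h2 _ (mem_image_of_mem _ (mem_univ i)) _ (mem_image_of_mem _ (mem_univ j)) h hij

lemma one_dim (a0 a1 b0 b1 w z : ℝ) (ha0 : 0 ≤ a0) (ha1 : 0 ≤ a1) (hb0 : 0 ≤ b0) (hb1 : 0 ≤ b1)
    (hz : 1 ≤ z) (h00 : a0 * b0 ≤ w) (h01 : a0 * b1 ≤ w) (h10 : a1 * b0 ≤ w)
    (h11 : a1 * b1 ≤ w * z) : (a0 + a1) * (b0 + b1) ≤ w * (2 + z + z⁻¹) := by
  have hw : 0 ≤ w := le_trans (mul_nonneg ha0 hb0) h00
  have hzpos : 0 < z := by linarith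
  have hprod : (a0 * b0) * (a1 * b1) ≤ w * w := by
    calc (a0 * b0) * (a1 * b1) = (a0 * b1) * (a1 * b0) := by ring
      _ ≤ w * w := mul_le_mul h01 h10 (mul_nonneg ha1 hb0) hw
  have key : a0 * b0 + a1 * b1 ≤ w * (z + z⁻¹) := by
    set a := a0 * b0
    set d := a1 * b1
    by_cases hd : d ≤ w
    · have : 2 ≤ z + z⁻¹ := by
        have : z + z⁻¹ - 2 = (z - 1) ^ 2 / z := by field_simp; ring
        have h2 : 0 ≤ (z - 1) ^ 2 / z := by positivity
        linarith
      nlinarith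
    · push Not at hd
      have hdpos : 0 < d := lt_of_le_of_lt hw hd
      have h1 : 0 ≤ (w * z - d) * (z * d - w) := mul_nonneg (by linarith) (by nlinarith)
      have h2 : (a + d) * (d * z) ≤ w * (z + z⁻¹) * (d * z) := by
        have : w * (z + z⁻¹) * (d * z) = w * z * z * d + w * d := by field_simp
        rw [this]
        nlinarith
      exact le_of_mul_le_mul_right h2 (by positivity)
  nlinarith

lemma tensor {α : Type*} [DecidableEq α] (z : ℝ) (hz : 1 ≤ z) (U : Finset α) :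
    ∀ (f g : Finset α → ℝ) (C : ℝ), (∀ A, 0 ≤ f A) → (∀ A, 0 ≤ g A) →
      (∀ A ⊆ U, ∀ B ⊆ U, f A * g B ≤ C * z ^ (A ∩ B).card) →
      (∑ A ∈ U.powerset, f A) * (∑ B ∈ U.powerset, g B) ≤ C * (2 + z + z⁻¹) ^ U.card := by
  induction U using Finset.induction_on with
  | empty =>
    intro f g C _ _ h
    simpa using h ∅ (Subset.refl _) ∅ (Subset.refl _)
  | insert a s has ih =>
    intro f g C hf hg h
    rw [sum_powerset_insert has, sum_powerset_insert has, ← sum_add_distrib, ← sum_add_distrib,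
      card_insert_of_notMem has, pow_succ', ← mul_assoc]
    apply ih _ _ _ (fun A => add_nonneg (hf _) (hf _)) (fun A => add_nonneg (hg _) (hg _))
    intro A hA B hB
    have haA : a ∉ A := fun h => has (hA h)
    have haB : a ∉ B := fun h => has (hB h)
    have sA : A ⊆ insert a s := hA.trans (subset_insert _ _)
    have sB : B ⊆ insert a s := hB.trans (subset_insert _ _)
    have sA' : insert a A ⊆ insert a s := insert_subset_insert _ hA
    have sB' : insert a B ⊆ insert a s := insert_subset_insert _ hB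
    have h00 := h A sA B sB
    have h01 := h A sA _ sB'
    have h10 := h _ sA' B sB
    have h11 := h _ sA' _ sB'
    rw [inter_insert_of_notMem haA] at h01
    rw [insert_inter_of_notMem haB] at h10
    rw [← insert_inter_distrib, card_insert_of_notMem (fun h => haA (mem_inter.mp h).1),
      pow_succ, ← mul_assoc] at h11
    have := one_dim _ _ _ _ _ z (hf _) (hf _) (hg _) (hg _) hz h00 h01 h10 h11
    linarith [this, mul_assoc C (2 + z + z⁻¹) (z ^ (A ∩ B).card),
      mul_comm (2 + z + z⁻¹) (z ^ (A ∩ B).card), mul_assoc C (z ^ (A ∩ B).card) (2 + z + z⁻¹)]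

lemma inter_bound (k : ℕ) (ε : ℝ) (hε : 0 ≤ ε) (F : Finset (Finset (Fin k)))
    (hF : ∀ A ∈ F, ∀ B ∈ F, ε * k / 2 ≤ ((A ∩ B).card : ℝ)) :
    (F.card : ℝ) ≤ 2 ^ k * Real.exp (-(k * ε ^ 2 / 8)) := by
  have hz : 1 ≤ Real.exp ε := Real.one_le_exp hε
  have h := tensor (Real.exp ε) hz (univ : Finset (Fin k))
    (fun A => if A ∈ F then 1 else 0) (fun A => if A ∈ F then 1 else 0)
    (Real.exp (-(ε * (ε * k / 2))))
    (fun A => by split_ifs <;> norm_num) (fun A => by split_ifs <;> norm_num) (by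
      intro A _ B _
      by_cases hA : A ∈ F <;> by_cases hB : B ∈ F
      · simp only [hA, hB, if_true, mul_one]
        rw [← Real.exp_nat_mul, ← Real.exp_add]
        apply Real.one_le_exp
        have := hF A hA B hB
        nlinarith
      all_goals
        simp only [hA, hB, if_false, if_true, mul_zero, zero_mul]
        positivity)
  have hs : ∑ A ∈ (univ : Finset (Fin k)).powerset, (if A ∈ F then (1 : ℝ) else 0) = F.card := by
    rw [sum_boole]
    congr 2
    ext A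
    simp
  rw [hs, card_univ, Fintype.card_fin] at h
  have h2 : 2 + Real.exp ε + (Real.exp ε)⁻¹ ≤ 4 * Real.exp (ε ^ 2 / 4) := by
    have e1 : 2 + Real.exp ε + (Real.exp ε)⁻¹ = 4 * Real.cosh (ε / 2) ^ 2 := by
      rw [Real.cosh_eq, ← Real.exp_neg]
      have a1 : Real.exp ε = Real.exp (ε / 2) * Real.exp (ε / 2) := by
        rw [← Real.exp_add]; ring_nf
      have a2 : Real.exp (-ε) = Real.exp (-(ε / 2)) * Real.exp (-(ε / 2)) := by
        rw [← Real.exp_add]; ring_nf
      have a3 : Real.exp (ε / 2) * Real.exp (-(ε / 2)) = 1 := by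
        rw [← Real.exp_add]; simp
      rw [a1, a2]
      nlinarith
    have e2 := Real.cosh_le_exp_half_sq (ε / 2)
    have e3 : Real.exp (ε ^ 2 / 4) = Real.exp ((ε / 2) ^ 2 / 2) ^ 2 := by
      rw [← Real.exp_nat_mul]; congr 1; push_cast; ring
    rw [e1, e3]
    have := (Real.cosh_pos (ε / 2)).le
    gcongr
  have h3 : (F.card : ℝ) * F.card ≤ (2 ^ k * Real.exp (-(k * ε ^ 2 / 8))) *
      (2 ^ k * Real.exp (-(k * ε ^ 2 / 8))) := by
    refine h.trans ?_
    calc _ ≤ Real.exp (-(ε * (ε * k / 2))) * (4 * Real.exp (ε ^ 2 / 4)) ^ k := by gcongr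
      _ = _ := by
        rw [mul_pow, ← Real.exp_nat_mul, mul_mul_mul_comm, ← mul_pow, ← Real.exp_add,
          mul_left_comm, ← Real.exp_add]
        congr 1
        · norm_num
        · congr 1; ring
  exact (mul_self_le_mul_self_iff (by positivity) (by positivity)).mpr h3

lemma mod_fibre (n k : ℕ) (hk : 0 < k) (j : ℕ) :
    ((univ : Finset (Fin n)).filter (fun x => x.val % k = j)).card ≤ n / k + 1 := by
  rw [← card_range (n / k + 1)]
  apply card_le_card_of_injOn (fun x => x.val / k)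
  · intro x _
    simp only [coe_range, Set.mem_Iio]
    have := Nat.div_le_div_right (c := k) x.isLt.le
    omega
  · intro x hx y hy hxy
    simp only [coe_filter, mem_univ, true_and, Set.mem_ofPred_eq] at hx hy
    apply Fin.ext
    rw [← Nat.div_add_mod x.val k, ← Nat.div_add_mod y.val k, hx, hy]
    simp only at hxy
    rw [hxy]

lemma pull_card (n k : ℕ) (hk : 0 < k) (I : Finset (Fin n)) :
    I.card ≤ (n / k + 1) * (I.image (fun x => (⟨x.val % k, Nat.mod_lt _ hk⟩ : Fin k))).card := by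
  apply card_le_mul_card_image
  intro a _
  refine le_trans (card_le_card ?_) (mod_fibre n k hk a.val)
  intro x hx
  rw [mem_filter] at hx ⊢
  exact ⟨mem_univ _, congrArg Fin.val hx.2⟩

lemma construct_aux (n m k : ℕ) (hk : 0 < k) (hkn : k ≤ n) (hkm : 2 ^ k ≤ m) (ε : ℝ)
    (hε : 0 ≤ ε) (hε' : ε ≤ 1 / 2) :
    ∃ A : Fin m → Finset (Fin n), (∀ i, n < 2 * (A i).card) ∧
      ∀ I : Finset (Fin m), (∀ i ∈ I, ∀ j ∈ I, i ≠ j → ε * n ≤ ((A i ∩ A j).card : ℝ)) →
        (I.card : ℝ) ≤ 8 * m * Real.exp (-(k * ε ^ 2 / 8)) := by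
  let π : Fin n → Fin k := fun x => ⟨x.val % k, Nat.mod_lt _ hk⟩
  let bl : Finset (Fin k) → Finset (Fin n) := fun B => univ.filter (fun x => π x ∈ B)
  have hbl : ∀ B, ((bl B).card : ℝ) * k ≤ 2 * n * B.card := by
    intro B
    have h1 := pull_card n k hk (bl B)
    have h2 : ((bl B).image π).card ≤ B.card := by
      apply card_le_card
      intro y hy
      obtain ⟨x, hx, rfl⟩ := mem_image.mp hy
      exact (mem_filter.mp hx).2
    have h3 : (n / k + 1) * k ≤ 2 * n := by
      have := Nat.div_mul_le_self n k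
      nlinarith
    have h4 : (bl B).card * k ≤ 2 * n * B.card := by
      calc (bl B).card * k ≤ ((n / k + 1) * B.card) * k :=
            Nat.mul_le_mul_right _ (h1.trans (Nat.mul_le_mul_left _ h2))
        _ = ((n / k + 1) * k) * B.card := by ring
        _ ≤ _ := Nat.mul_le_mul_right _ h3
    exact_mod_cast h4
  let z : Fin k := ⟨0, hk⟩
  let G : Finset (Finset (Fin k)) := univ.filter (fun B => n < 2 * (bl B).card)
  have hgood : ∀ B : Finset (Fin k), insert z B ∈ G ∨ insert z Bᶜ ∈ G := by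
    intro B
    have h1 := card_union_add_card_inter (bl (insert z B)) (bl (insert z Bᶜ))
    have h2 : bl (insert z B) ∪ bl (insert z Bᶜ) = univ := by
      ext x
      by_cases h : π x ∈ B <;> simp [bl, h]
    have h3 : (bl (insert z B) ∩ bl (insert z Bᶜ)).Nonempty := by
      refine ⟨⟨0, by omega⟩, ?_⟩
      simp [bl, π, z]
    have h4 := h3.card_pos
    rw [h2, card_univ, Fintype.card_fin] at h1
    simp only [G, mem_filter, mem_univ, true_and]
    omega
  have hG : 2 ^ k ≤ G.card * 4 := by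
    have hsub : (univ : Finset (Finset (Fin k))) ⊆
        G.biUnion (fun C => {C, C.erase z, Cᶜ, (C.erase z)ᶜ}) := by
      intro B _
      rw [mem_biUnion]
      rcases hgood B with h | h
      · refine ⟨_, h, ?_⟩
        by_cases hz : z ∈ B
        · simp [insert_eq_of_mem hz]
        · simp [erase_insert hz]
      · refine ⟨_, h, ?_⟩
        by_cases hz : z ∈ Bᶜ
        · simp [insert_eq_of_mem hz]
        · simp [erase_insert hz]
    have h1 := card_le_card hsub
    have h2 := card_biUnion_le_card_mul G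
      (fun C => ({C, C.erase z, Cᶜ, (C.erase z)ᶜ} : Finset (Finset (Fin k)))) 4
      (fun C _ => card_le_four)
    simp only [card_univ, Fintype.card_finset, Fintype.card_fin] at h1
    omega
  have hG' : G.card ≤ 2 ^ k := by simpa using card_le_univ G
  have hgpos : 0 < G.card := by
    have : 0 < 2 ^ k := by positivity
    omega
  let e := G.equivFin.symm
  let ρ : Fin m → Fin G.card := fun x => ⟨x.val % G.card, Nat.mod_lt _ hgpos⟩
  refine ⟨fun i => bl (e (ρ i)), fun i => (mem_filter.mp (e (ρ i)).2).2, ?_⟩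
  intro I hI
  have h1 := pull_card m G.card hgpos I
  have hnpos : (0 : ℝ) < n := by exact_mod_cast (by omega : 0 < n)
  have h2 := inter_bound k ε hε ((I.image ρ).image (fun y => (e y : Finset (Fin k)))) (by
    intro B hB B' hB'
    obtain ⟨y, hy, rfl⟩ := mem_image.mp hB
    obtain ⟨i, hi, rfl⟩ := mem_image.mp hy
    obtain ⟨y', hy', rfl⟩ := mem_image.mp hB'
    obtain ⟨j, hj, rfl⟩ := mem_image.mp hy'
    have hb := hbl ((e (ρ i) : Finset (Fin k)) ∩ e (ρ j))
    have hbi : bl ((e (ρ i) : Finset (Fin k)) ∩ e (ρ j)) = bl (e (ρ i)) ∩ bl (e (ρ j)) := by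
      ext x
      simp [bl]
    rw [hbi] at hb
    have hlow : ε * n ≤ ((bl (e (ρ i)) ∩ bl (e (ρ j))).card : ℝ) := by
      by_cases hij : i = j
      · subst hij
        rw [inter_self]
        have h5 : n < 2 * (bl (e (ρ i))).card := (mem_filter.mp (e (ρ i)).2).2
        have h6 : (n : ℝ) < 2 * (bl (e (ρ i))).card := by exact_mod_cast h5
        nlinarith
      · exact hI i hi j hj hij
    have hkpos : (0 : ℝ) ≤ k := by positivity
    have : ε * k / 2 * (2 * n) ≤ (((e (ρ i) : Finset (Fin k)) ∩ e (ρ j)).card : ℝ) * (2 * n) := by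
      nlinarith
    exact le_of_mul_le_mul_right this (by positivity))
  rw [card_image_of_injective _ (fun a b hab => e.injective (Subtype.ext hab))] at h2
  have h3 : (m / G.card + 1) * 2 ^ k ≤ 8 * m := by
    have := Nat.div_mul_le_self m G.card
    nlinarith
  have h3' : ((m / G.card + 1 : ℕ) : ℝ) * 2 ^ k ≤ 8 * m := by exact_mod_cast h3
  have h1' : (I.card : ℝ) ≤ ((m / G.card + 1 : ℕ) : ℝ) * ((I.image ρ).card : ℝ) := by
    exact_mod_cast h1
  calc (I.card : ℝ) ≤ ((m / G.card + 1 : ℕ) : ℝ) * (2 ^ k * Real.exp (-(k * ε ^ 2 / 8))) := by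
        refine h1'.trans ?_
        gcongr
    _ ≤ _ := by
        rw [← mul_assoc]
        gcongr

lemma construct (n m : ℕ) (hn : 1 ≤ n) (hm : 1 ≤ m) (ε : ℝ) (hε : 0 ≤ ε) (hε' : ε ≤ 1 / 2) :
    ∃ A : Fin m → Finset (Fin n), (∀ i, n < 2 * (A i).card) ∧
      ∀ I : Finset (Fin m), (∀ i ∈ I, ∀ j ∈ I, i ≠ j → ε * n ≤ ((A i ∩ A j).card : ℝ)) →
        (I.card : ℝ) ≤ 16 * m * ((min m (2 ^ n) : ℕ) : ℝ) ^ (-(ε ^ 2 / 8)) := by
  set N := min m (2 ^ n) with hN
  have hN1 : 1 ≤ N := le_min hm Nat.one_le_two_pow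
  set k := Nat.log 2 N with hk
  have h1 : 2 ^ k ≤ N := Nat.pow_log_le_self 2 (by omega)
  have h2 : N < 2 ^ (k + 1) := Nat.lt_pow_succ_log_self (by norm_num) N
  rcases Nat.eq_zero_or_pos k with h0 | h0
  · refine ⟨fun _ => univ, fun _ => by simp; omega, fun I _ => ?_⟩
    have : N = 1 := by rw [h0] at h2; omega
    rw [this]
    have h3 : I.card ≤ m := by simpa using card_le_univ I
    have h4 : (I.card : ℝ) ≤ m := by exact_mod_cast h3
    have : (0 : ℝ) ≤ m := by positivity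
    simp only [Nat.cast_one, Real.one_rpow]
    linarith
  have hkn : k ≤ n := by
    have : 2 ^ k ≤ 2 ^ n := h1.trans (min_le_right _ _)
    exact (Nat.pow_le_pow_iff_right (by norm_num)).mp this
  obtain ⟨A, hA, hI⟩ := construct_aux n m k h0 hkn (h1.trans (min_le_left _ _)) ε hε hε'
  refine ⟨A, hA, fun I h => (hI I h).trans ?_⟩
  have hNpos : (0 : ℝ) < N := by exact_mod_cast hN1
  have h3 : Real.log N ≤ k + 1 / 2 * 1.4 := by
    have a1 : (N : ℝ) ≤ 2 ^ (k + 1) := by exact_mod_cast h2.le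
    have a2 := Real.log_le_log hNpos a1
    rw [Real.log_pow] at a2
    have a3 := Real.log_two_lt_d9
    have a4 : (0 : ℝ) ≤ k := by positivity
    push_cast at a2
    nlinarith
  have h4 : Real.exp (-(k * ε ^ 2 / 8)) ≤ 2 * (N : ℝ) ^ (-(ε ^ 2 / 8)) := by
    rw [Real.rpow_def_of_pos hNpos]
    have a1 : (2 : ℝ) = Real.exp (Real.log 2) := (Real.exp_log (by norm_num)).symm
    rw [a1, ← Real.exp_add]
    apply Real.exp_le_exp.mpr
    have a3 := Real.log_two_gt_d9
    have a5 : ε ^ 2 ≤ 1 := by nlinarith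
    have a6 : 0 ≤ ε ^ 2 := by positivity
    nlinarith
  have : (0 : ℝ) ≤ m := by positivity
  nlinarith

end Pool.Agent.Lib.H2DRC
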