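import Mathlib

set_option autoImplicit false

namespace Pool.Agent.Lib.helper2.FPP

inductive Tr
  | L : Tr
  | B : ℕ → ℕ → Tr → Tr → Tr

def app (m : ℕ → ℕ) : ℕ → List ℕ → List ℕ
  | _, [] => []
  | y, d :: ds => (d &&& m y) :: app m (y + 1) ds

def Inv (f : ℕ → ℕ) : ℕ → List ℕ → Prop
  | _, [] => True
  | y, d :: ds => d.testBit (f y) = true ∧ Inv f (y + 1) ds

def chk (up dn : ℕ → ℕ) (al : ℕ) : Tr → List ℕ → Bool
  | Tr.L, ds => ds.any (fun d => d == 0)
  | Tr.B x v a b, ds =>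
    chk up dn al a (app (fun y => if y = x then 2 ^ v else if (up x).testBit y then up v
      else if (up y).testBit x then dn v else al) 0 ds) &&
    chk up dn al b (app (fun y => if y = x then al ^^^ 2 ^ v else al) 0 ds)

lemma app_inv (f m : ℕ → ℕ) (h : ∀ y, (m y).testBit (f y) = true) :
    ∀ ds y, Inv f y ds → Inv f y (app m y ds)
  | [], _, _ => trivial
  | d :: ds, y, hi => ⟨by rw [Nat.testBit_and, hi.1, h]; rfl, app_inv f m h ds _ hi.2⟩

lemma inv_zero (f : ℕ → ℕ) : ∀ ds y, Inv f y ds → ds.any (fun d => d == 0) = false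
  | [], _, _ => rfl
  | d :: ds, y, hi => by
    rw [List.any_cons, inv_zero f ds _ hi.2, Bool.or_false, beq_eq_false_iff_ne]
    rintro rfl
    simpa using hi.1

lemma inv_of (f : ℕ → ℕ) : ∀ (ds : List ℕ) (y : ℕ),
    (∀ i < ds.length, (ds.getD i 0).testBit (f (y + i)) = true) → Inv f y ds
  | [], _, _ => trivial
  | d :: ds, y, h => ⟨by simpa using h 0 (by simp), inv_of f ds _ (fun i hi => by
      have := h (i + 1) (by simpa using hi)
      rwa [List.getD_cons_succ, show y + (i + 1) = y + 1 + i by omega] at this)⟩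

lemma sound (up dn : ℕ → ℕ) (al : ℕ) (f : ℕ → ℕ) (h0 : ∀ y, al.testBit (f y) = true)
    (h1 : ∀ x y, (up x).testBit y = true → (up (f x)).testBit (f y) = true)
    (h2 : ∀ x y, (up y).testBit x = true → (dn (f x)).testBit (f y) = true) :
    ∀ t ds, chk up dn al t ds = true → ¬ Inv f 0 ds
  | Tr.L, ds, h => fun hi => by simp [chk, inv_zero f ds 0 hi] at h
  | Tr.B x v a b, ds, h => fun hi => by
    rw [chk, Bool.and_eq_true] at h
    by_cases e : f x = v
    · refine sound up dn al f h0 h1 h2 a _ h.1 (app_inv f _ (fun y => ?_) ds 0 hi)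
      subst e
      split_ifs with c1 c2 c3
      · rw [c1, Nat.testBit_two_pow_self]
      · exact h1 _ _ c2
      · exact h2 _ _ c3
      · exact h0 y
    · refine sound up dn al f h0 h1 h2 b _ h.2 (app_inv f _ (fun y => ?_) ds 0 hi)
      split_ifs with c1
      · rw [c1, Nat.testBit_xor, h0, Nat.testBit_two_pow_of_ne (Ne.symm e)]; rfl
      · exact h0 y

lemma fix_of_le {X : Type} [PartialOrder X] [Finite X] (f : X → X) (hf : Monotone f) (x : X)
    (h : x ≤ f x) : ∃ y, f y = y := by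
  obtain ⟨y, hy⟩ := (Set.toFinite {y | y ≤ f y}).exists_maximal ⟨x, h⟩
  exact ⟨y, le_antisymm (hy.2 (hf hy.1) hy.1) hy.1⟩

theorem fpp {X : Type} [PartialOrder X] [Finite X] (n : ℕ) (e : X ≃ Fin n) (up dn : ℕ → ℕ)
    (dom : List ℕ) (t : Tr) (hn : 0 < n)
    (hle : ∀ a b, a ≤ b ↔ (up (e a)).testBit (e b) = true)
    (hup : ∀ x y, (up x).testBit y = true → x < n ∧ y < n)
    (hdn : ∀ v w : Fin n, (up w).testBit v = true → (dn v).testBit w = true)
    (hlen : dom.length = n)
    (hdom : ∀ x v : Fin n, (up x).testBit v = true ∨ (up v).testBit x = true ∨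
      (dom.getD x 0).testBit v = true)
    (hc : chk up dn (2 ^ n - 1) t dom = true) (f : X → X) (hf : Monotone f) : ∃ x, f x = x := by
  by_contra hno
  let g : ℕ → ℕ := fun y => if h : y < n then e (f (e.symm ⟨y, h⟩)) else 0
  have mono : ∀ x y, (up x).testBit y = true → ∃ a b : X, a ≤ b ∧ g x = e a ∧ g y = e b := by
    intro x y h
    obtain ⟨hx, hy⟩ := hup x y h
    exact ⟨_, _, hf ((hle (e.symm ⟨x, hx⟩) (e.symm ⟨y, hy⟩)).2 (by simpa using h)),
      dif_pos hx, dif_pos hy⟩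
  refine sound up dn _ g (fun y => ?_) (fun x y h => ?_) (fun x y h => ?_) t dom hc
    (inv_of g dom 0 fun i hi => ?_)
  · rw [Nat.testBit_two_pow_sub_one, decide_eq_true_eq]
    simp only [g]; split_ifs
    · exact Fin.is_lt _
    · exact hn
  · obtain ⟨a, b, hab, ea, eb⟩ := mono x y h
    rw [ea, eb]; exact (hle a b).1 hab
  · obtain ⟨a, b, hab, ea, eb⟩ := mono y x h
    rw [ea, eb]; exact hdn _ _ ((hle a b).1 hab)
  · rw [hlen] at hi
    rw [zero_add, show g i = e (f (e.symm ⟨i, hi⟩)) from dif_pos hi]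
    rcases hdom ⟨i, hi⟩ (e (f (e.symm ⟨i, hi⟩))) with h | h | h
    · exact absurd (fix_of_le f hf (e.symm ⟨i, hi⟩) ((hle _ _).2 (by simpa using h))) hno
    · exact absurd (fix_of_le (X := Xᵒᵈ) f hf.dual (e.symm ⟨i, hi⟩)
        ((hle _ _).2 (by simpa using h))) hno
    · exact h

end Pool.Agent.Lib.helper2.FPP
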