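import Mathlib

set_option autoImplicit false

namespace Pool.Agent.Lib.helper2.IRPath

lemma iso_of {α β : Type} (H : SimpleGraph α) (Q : β → Prop) (R : β → β → Prop) (f : α → β)
    (hf : Function.Injective f) (hQ : ∀ S, Q S ↔ ∃ i, f i = S)
    (hR : ∀ i j, H.Adj i j ↔ i ≠ j ∧ (R (f i) (f j) ∨ R (f j) (f i))) :
    Nonempty (H ≃g SimpleGraph.fromRel (fun D E : {S // Q S} => R D.1 E.1)) := by
  refine ⟨⟨Equiv.ofBijective (fun i => ⟨f i, (hQ _).2 ⟨i, rfl⟩⟩) ⟨fun i j h => hf (congrArg Subtype.val h),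
    fun S => ((hQ _).1 S.2).imp fun i hi => Subtype.ext hi⟩, fun {i j} => ?_⟩⟩
  simp [hR, hf.eq_iff]

def N (v w : Fin 9) : Bool := Nat.testBit 1357518854879624037648179 (9 * v.val + w.val)

def G : SimpleGraph (Fin 9) := SimpleGraph.fromRel (fun u v => N u v = true)

instance : DecidableRel G.Adj := fun x y => by unfold G; infer_instance

def f : Fin 7 → Finset (Fin 9) :=
  ![{1, 6, 7}, {1, 5, 6}, {0, 5, 6}, {0, 2, 6}, {0, 2, 4}, {2, 4, 8}, {2, 3, 8}]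

def P (T : Finset (Fin 9)) : Prop :=
  ∀ v ∈ T, ∃ w : Fin 9, (w = v ∨ G.Adj v w) ∧ ∀ u ∈ T, u ≠ v → ¬ (w = u ∨ G.Adj u w)

lemma c0 : ∀ v w, (w = v ∨ G.Adj v w) ↔ N v w = true := by decide +kernel

lemma c1 : ∀ T : Finset (Fin 9), (∀ v ∈ T, ∃ w, N v w = true ∧ ∀ u ∈ T, u ≠ v → ¬ N u w = true) →
    T.card ≤ 2 ∨ ∃ i, f i = T := by decide +kernel

lemma c2 : ∀ i, (f i).card = 3 ∧
    ∀ v ∈ f i, ∃ w, N v w = true ∧ ∀ u ∈ f i, u ≠ v → ¬ N u w = true := by decide +kernel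

lemma hQ (S : Finset (Fin 9)) : (P S ∧ ∀ T, P T → T.card ≤ S.card) ↔ ∃ i, f i = S := by
  simp only [P, c0]
  constructor
  · rintro ⟨h1, h2⟩
    refine (c1 S h1).resolve_left fun h => ?_
    have := h2 _ (c2 0).2
    have := (c2 0).1
    omega
  · rintro ⟨i, rfl⟩
    refine ⟨(c2 i).2, fun T hT => ?_⟩
    rcases c1 T hT with h | ⟨j, rfl⟩
    · have := (c2 i).1; omega
    · rw [(c2 i).1, (c2 j).1]

lemma hf : Function.Injective f := by decide +kernel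

lemma r1 : ∀ i j : Fin 7, (i.val + 1 = j.val ∨ j.val + 1 = i.val) ↔ i ≠ j ∧
    ((∃ v ∈ f i, ∃ v' ∈ f j, G.Adj v v' ∧ f j = insert v' ((f i).erase v)) ∨
      ∃ v ∈ f j, ∃ v' ∈ f i, G.Adj v v' ∧ f i = insert v' ((f j).erase v)) := by decide +kernel

lemma r2 : ∀ i j : Fin 7, (i.val + 1 = j.val ∨ j.val + 1 = i.val) ↔ i ≠ j ∧
    ((∃ u v, f i \ f j = {u} ∧ f j \ f i = {v} ∧ G.Adj u v) ∨
      ∃ u v, f j \ f i = {u} ∧ f i \ f j = {v} ∧ G.Adj u v) := by decide +kernel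

end Pool.Agent.Lib.helper2.IRPath
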