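import Pool.Agent.Lib.helper2.IntCount

set_option autoImplicit false

namespace Pool.Agent.Lib.Helper2.IntCount

/-- The pair masks other than `3`, those disjoint from `3` first. -/
def Lc : List ℕ := [12, 20, 36, 68, 24, 40, 72, 48, 80, 96, 5, 9, 17, 33, 65, 6, 10, 18, 34, 66]

theorem chk_true : chk Lc 20 [3] 9 0 3 = true := by decide +kernel

end Pool.Agent.Lib.Helper2.IntCount
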