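import Mathlib

set_option autoImplicit false

namespace Pool.Agent.Lib.Helper2.IntCount

open Finset

section general
variable {α : Type*} [DecidableEq α]

/-- Number of `s`-subsets of `A` whose distinct members are pairwise related by `R`. -/
def I (R : α → α → Prop) [DecidableRel R] (A : Finset α) (s : ℕ) : ℕ :=
  ((A.powersetCard s).filter (fun F => ∀ X ∈ F, ∀ Y ∈ F, X ≠ Y → R X Y)).card

variable (R : α → α → Prop) [DecidableRel R]

theorem I_zero (A : Finset α) : I R A 0 = 1 := by
  simp [I, Finset.filter_singleton]

theorem I_small (A : Finset α) (s : ℕ) (h : A.card < s) : I R A s = 0 := by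
  simp [I, Finset.powersetCard_eq_empty.2 h]

theorem I_mono {A B : Finset α} (h : A ⊆ B) (s : ℕ) : I R A s ≤ I R B s :=
  Finset.card_le_card (Finset.filter_subset_filter _ (Finset.powersetCard_mono h))

theorem I_all (A : Finset α) (s : ℕ) (h : ∀ X ∈ A, ∀ Y ∈ A, X ≠ Y → R X Y) :
    I R A s = A.card.choose s := by
  unfold I
  rw [Finset.filter_true_of_mem, Finset.card_powersetCard]
  intro F hF X hX Y hY hne
  have := (Finset.mem_powersetCard.1 hF).1
  exact h X (this hX) Y (this hY) hne

theorem I_insert (hs : ∀ a b, R a b → R b a) {x : α} {A : Finset α} (hx : x ∉ A) (s : ℕ) :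
    I R (insert x A) (s + 1) = I R A (s + 1) + I R (A.filter (R x)) s := by
  unfold I
  rw [Finset.powersetCard_succ_insert hx, Finset.filter_union, Finset.card_union_of_disjoint]
  · congr 1
    have e : ((A.powersetCard s).image (insert x)).filter
        (fun F => ∀ X ∈ F, ∀ Y ∈ F, X ≠ Y → R X Y) =
        (((A.filter (R x)).powersetCard s).filter
          (fun F => ∀ X ∈ F, ∀ Y ∈ F, X ≠ Y → R X Y)).image (insert x) := by
      ext F
      simp only [Finset.mem_filter, Finset.mem_image, Finset.mem_powersetCard]
      constructor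
      · rintro ⟨⟨F', ⟨h1, h2⟩, rfl⟩, h3⟩
        refine ⟨F', ⟨⟨fun y hy => ?_, h2⟩, fun X hX Y hY hne =>
          h3 X (Finset.mem_insert_of_mem hX) Y (Finset.mem_insert_of_mem hY) hne⟩, rfl⟩
        refine Finset.mem_filter.2 ⟨h1 hy, h3 x (Finset.mem_insert_self _ _) y
          (Finset.mem_insert_of_mem hy) ?_⟩
        rintro rfl
        exact hx (h1 hy)
      · rintro ⟨F', ⟨⟨h1, h2⟩, h3⟩, rfl⟩
        refine ⟨⟨F', ⟨fun y hy => (Finset.mem_filter.1 (h1 hy)).1, h2⟩, rfl⟩, ?_⟩
        intro X hX Y hY hne
        rcases Finset.mem_insert.1 hX with rfl | hX'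
        · rcases Finset.mem_insert.1 hY with rfl | hY'
          · exact absurd rfl hne
          · exact (Finset.mem_filter.1 (h1 hY')).2
        · rcases Finset.mem_insert.1 hY with rfl | hY'
          · exact hs _ _ (Finset.mem_filter.1 (h1 hX')).2
          · exact h3 X hX' Y hY' hne
    rw [e, Finset.card_image_of_injOn]
    intro F hF F' hF' h
    have h1 : x ∉ F := fun hh => hx (Finset.mem_filter.1
      ((Finset.mem_powersetCard.1 (Finset.mem_filter.1 (Finset.mem_coe.1 hF)).1).1 hh)).1
    have h2 : x ∉ F' := fun hh => hx (Finset.mem_filter.1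
      ((Finset.mem_powersetCard.1 (Finset.mem_filter.1 (Finset.mem_coe.1 hF')).1).1 hh)).1
    rw [← Finset.erase_insert h1, ← Finset.erase_insert h2]
    exact congrArg (fun Z => Finset.erase Z x) h
  · rw [Finset.disjoint_left]
    intro F h1 h2
    obtain ⟨F', _, rfl⟩ := Finset.mem_image.1 (Finset.mem_filter.1 h2).1
    exact hx ((Finset.mem_powersetCard.1 (Finset.mem_filter.1 h1).1).1 (Finset.mem_insert_self _ _))

theorem I_one (A : Finset α) : I R A 1 = A.card := by
  unfold I
  rw [Finset.filter_true_of_mem, Finset.card_powersetCard, Nat.choose_one_right]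
  intro F hF X hX Y hY hne
  exact absurd (Finset.card_le_one.1 (Finset.mem_powersetCard.1 hF).2.le X hX Y hY) hne

theorem I_image {β : Type*} [DecidableEq β] (R' : β → β → Prop) [DecidableRel R'] (f : α → β)
    (A : Finset α) (hf : Set.InjOn f A) (hR : ∀ a ∈ A, ∀ b ∈ A, R' (f a) (f b) ↔ R a b) (s : ℕ) :
    I R' (A.image f) s = I R A s := by
  unfold I
  symm
  refine Finset.card_bij (fun F _ => F.image f) ?_ ?_ ?_
  · intro F hF
    simp only [Finset.mem_filter, Finset.mem_powersetCard] at hF ⊢
    obtain ⟨⟨h1, h2⟩, h3⟩ := hF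
    refine ⟨⟨Finset.image_subset_image h1, ?_⟩, ?_⟩
    · rw [Finset.card_image_of_injOn (hf.mono (by exact_mod_cast h1)), h2]
    · intro X hX Y hY hne
      obtain ⟨a, ha, rfl⟩ := Finset.mem_image.1 hX
      obtain ⟨b, hb, rfl⟩ := Finset.mem_image.1 hY
      exact (hR a (h1 ha) b (h1 hb)).2 (h3 a ha b hb (fun h => hne (by rw [h])))
  · intro F hF F' hF' h
    simp only [Finset.mem_filter, Finset.mem_powersetCard] at hF hF'
    have key : ∀ {U V : Finset α}, U ⊆ A → V ⊆ A → U.image f = V.image f → U ⊆ V := by
      intro U V hU hV hUV a ha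
      have : f a ∈ V.image f := hUV ▸ Finset.mem_image_of_mem f ha
      obtain ⟨b, hb, hab⟩ := Finset.mem_image.1 this
      rw [← hf (hV hb) (hU ha) hab]; exact hb
    exact Finset.Subset.antisymm (key hF.1.1 hF'.1.1 h) (key hF'.1.1 hF.1.1 h.symm)
  · intro F hF
    simp only [Finset.mem_filter, Finset.mem_powersetCard] at hF
    obtain ⟨⟨h1, h2⟩, h3⟩ := hF
    have e : (A.filter (fun a => f a ∈ F)).image f = F := by
      ext y
      simp only [Finset.mem_image, Finset.mem_filter]
      constructor
      · rintro ⟨a, ⟨_, ha⟩, rfl⟩; exact ha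
      · intro hy
        obtain ⟨a, ha, rfl⟩ := Finset.mem_image.1 (h1 hy)
        exact ⟨a, ⟨ha, hy⟩, rfl⟩
    refine ⟨A.filter (fun a => f a ∈ F), ?_, e⟩
    simp only [Finset.mem_filter, Finset.mem_powersetCard]
    refine ⟨⟨Finset.filter_subset _ _, ?_⟩, ?_⟩
    · rw [← h2, ← e, Finset.card_image_of_injOn (hf.mono (by
        intro a ha; exact (Finset.mem_filter.1 (Finset.mem_coe.1 ha)).1))]
      rw [e]
    · rintro X ⟨hX, hX'⟩ Y ⟨hY, hY'⟩ hne
      exact (hR X hX Y hY).1 (h3 _ hX' _ hY' (fun h => hne (hf hX hY h)))

theorem I_two_union (hs : ∀ a b, R a b → R b a) (T G : Finset α) (hd : Disjoint G T) :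
    I R (G ∪ T) 2 = I R T 2 + ∑ x ∈ G, (T.filter (R x)).card + I R G 2 := by
  induction G using Finset.induction_on with
  | empty => simp [I_small]
  | insert x G hx ih =>
    have hd' : Disjoint G T := (Finset.disjoint_insert_left.1 hd).2
    have hxT : x ∉ T := (Finset.disjoint_insert_left.1 hd).1
    have hx' : x ∉ G ∪ T := by simp [hx, hxT]
    rw [Finset.insert_union, I_insert R hs hx' 1, I_insert R hs hx 1, ih hd', I_one, I_one,
      Finset.sum_insert hx, Finset.filter_union, Finset.card_union_of_disjoint
        (Finset.disjoint_filter_filter hd')]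
    ring

theorem I_two_compl (hs : ∀ a b, R a b → R b a) (R' : α → α → Prop) [DecidableRel R']
    (hs' : ∀ a b, R' a b → R' b a) (hc : ∀ a b, R' a b ↔ ¬ R a b) (G : Finset α) :
    I R G 2 + I R' G 2 = G.card.choose 2 := by
  induction G using Finset.induction_on with
  | empty => simp [I_small]
  | insert x G hx ih =>
    rw [I_insert R hs hx 1, I_insert R' hs' hx 1, I_one, I_one, Finset.card_insert_of_notMem hx,
      Nat.choose_succ_succ' _ 1, Nat.choose_one_right]
    have e : G.filter (R' x) = G.filter (fun y => ¬ R x y) :=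
      Finset.filter_congr fun y _ => hc x y
    have := Finset.card_filter_add_card_filter_not (s := G) (R x)
    rw [e]
    norm_num
    omega

theorem I_handshake (hs : ∀ a b, R a b → R b a) (G : Finset α) (hi : ∀ a ∈ G, ¬ R a a) :
    ∑ x ∈ G, (G.filter (R x)).card = 2 * I R G 2 := by
  induction G using Finset.induction_on with
  | empty => simp [I_small]
  | insert x G hx ih =>
    rw [I_insert R hs hx 1, I_one, Finset.sum_insert hx, mul_add,
      ← ih (fun a ha => hi a (Finset.mem_insert_of_mem ha)), Finset.filter_insert,
      if_neg (hi x (Finset.mem_insert_self _ _))]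
    have e : ∀ y ∈ G, ((insert x G).filter (R y)).card =
        (G.filter (R y)).card + if R x y then 1 else 0 := by
      intro y _
      rw [Finset.filter_insert]
      by_cases h : R x y
      · rw [if_pos (hs _ _ h), if_pos h, Finset.card_insert_of_notMem (by simp [hx])]
      · rw [if_neg (fun hh => h (hs _ _ hh)), if_neg h, add_zero]
    rw [Finset.sum_congr rfl e, Finset.sum_add_distrib, Finset.sum_boole]
    simp only [Nat.cast_id]
    ring

end general

/-- Two bit masks meet. -/
def Rm (a b : ℕ) : Prop := a &&& b ≠ 0

instance : DecidableRel Rm := fun a b => inferInstanceAs (Decidable (a &&& b ≠ 0))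

/-- Two bit masks are disjoint. -/
def Dm (a b : ℕ) : Prop := a &&& b = 0

instance : DecidableRel Dm := fun a b => inferInstanceAs (Decidable (a &&& b = 0))

theorem Rm_symm (a b : ℕ) (h : Rm a b) : Rm b a := by
  unfold Rm at *; rwa [Nat.land_comm]

theorem Dm_symm (a b : ℕ) (h : Dm a b) : Dm b a := by
  unfold Dm at *; rwa [Nat.land_comm]

/-- Boolean test for meeting masks. -/
def mt (x y : ℕ) : Bool := !(Nat.beq (Nat.land x y) 0)

theorem mt_iff (x y : ℕ) : mt x y = true ↔ Rm x y := by
  unfold mt Rm
  rw [Bool.not_eq_true', ← Bool.not_eq_true, Nat.beq_eq]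
  rfl

theorem toFinset_filter_mt (x : ℕ) (L : List ℕ) :
    (L.filter (mt x)).toFinset = L.toFinset.filter (Rm x) := by
  ext y; simp [mt_iff]

/-- The masks of two-element subsets of a seven-element set. -/
def Pm : List ℕ := [3, 5, 9, 17, 33, 65, 6, 10, 18, 34, 66, 12, 20, 36, 68, 24, 40, 72, 48, 80, 96]

/-- All listed masks avoid one pair. -/
def good (cur : List ℕ) : Bool := Pm.any (fun p => cur.all (fun z => !(mt p z)))

/-- Search over ten-edge graphs with at most fifteen disjoint pairs of edges, at most `b` of the
new edges being disjoint from the mask `3`. -/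
def chk : List ℕ → ℕ → List ℕ → ℕ → ℕ → ℕ → Bool
  | _, _, cur, 0, _, _ => good cur
  | [], _, _, _ + 1, _, _ => true
  | x :: L, n, cur, r + 1, c, b =>
    if n < r + 1 then true
    else chk L (n - 1) cur (r + 1) c b &&
      (Nat.blt 15 (c + (cur.filter (fun z => !(mt x z))).length) ||
        (if mt 3 x then
          chk L (n - 1) (x :: cur) r (c + (cur.filter (fun z => !(mt x z))).length) b
        else (Nat.beq b 0 ||
          chk L (n - 1) (x :: cur) r (c + (cur.filter (fun z => !(mt x z))).length) (b - 1))))

theorem good_sound (cur : List ℕ) (h : good cur = true) :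
    ∃ p ∈ Pm, ∀ z ∈ cur.toFinset, Dm p z := by
  simp only [good, List.any_eq_true, List.all_eq_true] at h
  obtain ⟨p, hp, h⟩ := h
  refine ⟨p, hp, fun z hz => ?_⟩
  have := h z (List.mem_toFinset.1 hz)
  rw [Bool.not_eq_true', ← Bool.not_eq_true, mt_iff] at this
  exact not_not.1 this

theorem chk_sound : ∀ (L : List ℕ) (n : ℕ) (cur : List ℕ) (r c b : ℕ), n = L.length →
    (L ++ cur).Nodup → c = I Dm cur.toFinset 2 → chk L n cur r c b = true →
    ∀ S ⊆ L.toFinset, S.card = r → (S.filter (Dm 3)).card ≤ b → I Dm (S ∪ cur.toFinset) 2 ≤ 15 →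
      ∃ p ∈ Pm, ∀ z ∈ S ∪ cur.toFinset, Dm p z := by
  intro L
  induction L with
  | nil =>
    intro n cur r c b _ _ _ h S hS hr _ _
    have : S = ∅ := by simpa using hS
    subst this
    have : r = 0 := by simpa using hr.symm
    subst this
    simpa using good_sound cur (by simpa [chk] using h)
  | cons x L ih =>
    intro n cur r c b hn hnd hc h S hS hr hb h15
    cases r with
    | zero =>
      have : S = ∅ := Finset.card_eq_zero.1 hr
      subst this
      simpa using good_sound cur (by simpa [chk] using h)
    | succ r =>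
      have hnd1 : (L ++ cur).Nodup := (List.nodup_cons.1 hnd).2
      have hx1 : x ∉ L ++ cur := (List.nodup_cons.1 hnd).1
      rw [chk] at h
      by_cases hlt : n < r + 1
      · exfalso
        have := Finset.card_le_card hS
        have h2 := List.toFinset_card_le (x :: L)
        omega
      · rw [if_neg hlt, Bool.and_eq_true, Bool.or_eq_true] at h
        have hn' : n - 1 = L.length := by simp [hn]
        by_cases hxS : x ∈ S
        · have hxc : x ∉ cur.toFinset := by
            rw [List.mem_toFinset]; exact fun hh => hx1 (List.mem_append_right _ hh)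
          have hc2 : c + (cur.filter (fun z => !(mt x z))).length = I Dm (x :: cur).toFinset 2 := by
            rw [List.toFinset_cons, I_insert Dm Dm_symm hxc 1, I_one, ← hc,
              ← List.toFinset_card_of_nodup ((List.nodup_append.1 hnd1).2.1.filter _)]
            congr 2
            ext y
            simp only [List.toFinset_filter, Finset.mem_filter, Bool.not_eq_true',
              ← Bool.not_eq_true, mt_iff, Rm, Dm, not_not]
          have e : S ∪ cur.toFinset = S.erase x ∪ (x :: cur).toFinset := by
            ext y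
            simp only [Finset.mem_union, Finset.mem_erase, List.toFinset_cons, Finset.mem_insert]
            by_cases hy : y = x
            · simp [hy, hxS]
            · simp [hy]
          rcases h.2 with h3 | h3
          · exfalso
            rw [hc2, Nat.blt_eq] at h3
            have := I_mono Dm (A := (x :: cur).toFinset) (B := S ∪ cur.toFinset)
              (by rw [e]; exact Finset.subset_union_right) 2
            omega
          · rw [e] at h15 ⊢
            have k1 : (L ++ x :: cur).Nodup := List.perm_middle.nodup_iff.2 hnd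
            have k2 : S.erase x ⊆ L.toFinset := by
              intro y hy
              have := hS (Finset.mem_of_mem_erase hy)
              rw [List.toFinset_cons, Finset.mem_insert] at this
              exact this.resolve_left (Finset.ne_of_mem_erase hy)
            have k3 : (S.erase x).card = r := by rw [Finset.card_erase_of_mem hxS, hr]; rfl
            by_cases hm : mt 3 x = true
            · rw [if_pos hm] at h3
              refine ih (n - 1) (x :: cur) r _ b hn' k1 hc2 h3 (S.erase x) k2 k3 ?_ h15
              exact (Finset.card_le_card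
                (Finset.filter_subset_filter _ (Finset.erase_subset _ _))).trans hb
            · have hd : x ∈ S.filter (Dm 3) :=
                Finset.mem_filter.2 ⟨hxS, by rw [mt_iff] at hm; exact not_not.1 hm⟩
              have hpos := Finset.card_pos.2 ⟨x, hd⟩
              rw [if_neg hm, Bool.or_eq_true, Nat.beq_eq] at h3
              rcases h3 with h3 | h3
              · omega
              · refine ih (n - 1) (x :: cur) r _ (b - 1) hn' k1 hc2 h3 (S.erase x) k2 k3 ?_ h15
                rw [Finset.filter_erase, Finset.card_erase_of_mem hd]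
                omega
        · refine ih (n - 1) cur (r + 1) c b hn' hnd1 hc h.1 S ?_ hr hb h15
          intro y hy
          have := hS hy
          rw [List.toFinset_cons, Finset.mem_insert] at this
          exact this.resolve_left (fun hh => hxS (hh ▸ hy))

end Pool.Agent.Lib.Helper2.IntCount
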