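import Pool.Agent.Lib.helper2.IntCount

set_option autoImplicit false

namespace Pool.Agent.Lib.Helper2.IntCount

open Finset

/-- Index `p` stands for the mask `pos p`; indices `p` and `p + 64` are complementary. -/
def pos (p : ℕ) : ℕ := if p < 64 then p else 191 - p

/-- The meeting relation on indices. -/
def Rp (p q : ℕ) : Prop := Rm (pos p) (pos q)

instance : DecidableRel Rp := fun a b => inferInstanceAs (Decidable (Rm (pos a) (pos b)))

theorem Rp_symm (a b : ℕ) (h : Rp a b) : Rp b a := Rm_symm _ _ h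

/-- The family coded by a mask. -/
def fam (S : ℕ) : Finset ℕ := (Finset.range 128).filter (fun i => S.testBit i = true)

/-- Table of neighbourhoods. -/
def big : ℕ := 0xffffffffffffffff0000000000000000ffffffffffffffffaaaaaaaaaaaaaaaaffffffffffffffffccccccccccccccccffffffffffffffffeeeeeeeeeeeeeeeefffffffffffffffff0f0f0f0f0f0f0f0fffffffffffffffffafafafafafafafafffffffffffffffffcfcfcfcfcfcfcfcfffffffffffffffffefefefefefefefeffffffffffffffffff00ff00ff00ff00ffffffffffffffffffaaffaaffaaffaaffffffffffffffffffccffccffccffccffffffffffffffffffeeffeeffeeffeefffffffffffffffffff0fff0fff0fff0fffffffffffffffffffafffafffafffafffffffffffffffffffcfffcfffcfffcfffffffffffffffffffefffefffefffeffffffffffffffffffff0000ffff0000ffffffffffffffffffffaaaaffffaaaaffffffffffffffffffffccccffffccccffffffffffffffffffffeeeeffffeeeefffffffffffffffffffff0f0fffff0f0fffffffffffffffffffffafafffffafafffffffffffffffffffffcfcfffffcfcfffffffffffffffffffffefefffffefeffffffffffffffffffffff00ffffff00ffffffffffffffffffffffaaffffffaafffffffffffff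fffffffffccffffffccffffffffffffffffffffffeeffffffeefffffffffffffffffffffff0fffffff0fffffffffffffffffffffffafffffffafffffffffffffffffffffffcfffffffcfffffffffffffffffffffffefffffffeffffffffffffffffffffffff00000000ffffffffffffffffffffffffaaaaaaaaffffffffffffffffffffffffccccccccffffffffffffffffffffffffeeeeeeeefffffffffffffffffffffffff0f0f0f0fffffffffffffffffffffffffafafafafffffffffffffffffffffffffcfcfcfcfffffffffffffffffffffffffefefefeffffffffffffffffffffffffff00ff00ffffffffffffffffffffffffffaaffaaffffffffffffffffffffffffffccffccffffffffffffffffffffffffffeeffeefffffffffffffffffffffffffff0fff0fffffffffffffffffffffffffffafffafffffffffffffffffffffffffffcfffcfffffffffffffffffffffffffffefffeffffffffffffffffffffffffffff0000ffffffffffffffffffffffffffffaaaaffffffffffffffffffffffffffffccccffffffffffffffffffffffffffffeeeefffffffffffffffffffffffffffff0f0fffffffffffffffffffffffffffffafafffffffffffffffffffffffffffffcfcfffffffffffffffffffffffffffffefeffffffffffffffffffffffffffffff00ffffffffffffffffffffffffffffffaafffffff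fffffffffffffffffffffffccffffffffffffffffffffffffffffffeefffffffffffffffffffffffffffffff0fffffffffffffffffffffffffffffffafffffffffffffffffffffffffffffffcfffffffffffffffffffffffffffffffe7ffffffffffffffffffffffffffffffe3ffffffffffffffffffffffffffffffc5ffffffffffffffffffffffffffffffa0ffffffffffffffffffffffffffffff077ffffffffffffffffffffffffffffee33ffffffffffffffffffffffffffffcc55ffffffffffffffffffffffffffffaa00ffffffffffffffffffffffffffff007f7ffffffffffffffffffffffffffefe3f3ffffffffffffffffffffffffffcfc5f5ffffffffffffffffffffffffffafa0f0ffffffffffffffffffffffffff0f07777ffffffffffffffffffffffffeeee3333ffffffffffffffffffffffffcccc5555ffffffffffffffffffffffffaaaa0000ffffffffffffffffffffffff00007fff7ffffffffffffffffffffffefffe3fff3ffffffffffffffffffffffcfffc5fff5ffffffffffffffffffffffafffa0fff0ffffffffffffffffffffff0fff077ff77ffffffffffffffffffffeeffee33ff33ffffffffffffffffffffccffcc55ff55ffffffffffffffffffffaaffaa00ff00ffffffffffffffffffff00ff007f7f7f7ffffffffffffffffffefefefe3f3f3f3ffffffffffffffffffcfcfcfc5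f5f5f5ffffffffffffffffffafafafa0f0f0f0ffffffffffffffffff0f0f0f077777777ffffffffffffffffeeeeeeee33333333ffffffffffffffffcccccccc55555555ffffffffffffffffaaaaaaaa00000000ffffffffffffffff000000007fffffff7ffffffffffffffefffffffe3fffffff3ffffffffffffffcfffffffc5fffffff5ffffffffffffffafffffffa0fffffff0ffffffffffffff0fffffff077ffffff77ffffffffffffeeffffffee33ffffff33ffffffffffffccffffffcc55ffffff55ffffffffffffaaffffffaa00ffffff00ffffffffffff00ffffff007f7fffff7f7ffffffffffefefffffefe3f3fffff3f3ffffffffffcfcfffffcfc5f5fffff5f5ffffffffffafafffffafa0f0fffff0f0ffffffffff0f0fffff0f07777ffff7777ffffffffeeeeffffeeee3333ffff3333ffffffffccccffffcccc5555ffff5555ffffffffaaaaffffaaaa0000ffff0000ffffffff0000ffff00007fff7fff7fff7ffffffefffefffefffe3fff3fff3fff3ffffffcfffcfffcfffc5fff5fff5fff5ffffffafffafffafffa0fff0fff0fff0ffffff0fff0fff0fff077ff77ff77ff77ffffeeffeeffeeffee33ff33ff33ff33ffffccffccffccffcc55ff55ff55ff55ffffaaffaaffaaffaa00ff00ff00ff00ffff00ff00ff00ff007f7f7f7f7f7f7f7ffefefefefefefefe3f3f3f3f3f3f3f3ffcfcfcfcfcfcfcfc5f5f5f5f5f5f5f5ffafafafafafafafa0f0f0f0f0f0f0f0ff0f0f0f0f0f0f0f07777777777777777eeeeeeeeeeeeeeee3333333333333333cccccccccccccccc5555555555555555aaaaaaaaaaaaaaaa00000000000000000000000000000000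

/-- Neighbourhood mask of an index. -/
def nb (x : ℕ) : ℕ := (big >>> (128 * x)) % 2 ^ 128

theorem nb_spec : ∀ x < 128, ∀ y < 128, (nb x).testBit y = mt (pos x) (pos y) := by
  decide +kernel

theorem not_Rp_compl : ∀ p < 64, ¬ Rp p (p + 64) := by decide +kernel

theorem Rp_self : ∀ p < 128, p ≠ 0 → Rp p p := by decide +kernel

theorem fam_and (S x : ℕ) (hx : x < 128) : fam (S &&& nb x) = (fam S).filter (Rp x) := by
  ext y
  simp only [fam, Finset.mem_filter, Finset.mem_range, Nat.testBit_and, Bool.and_eq_true]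
  constructor
  · rintro ⟨h1, h2, h3⟩
    rw [nb_spec x hx y h1, mt_iff] at h3
    exact ⟨⟨h1, h2⟩, h3⟩
  · rintro ⟨⟨h1, h2⟩, h3⟩
    refine ⟨h1, h2, ?_⟩
    rw [nb_spec x hx y h1, mt_iff]
    exact h3

theorem fam_xor (S x : ℕ) (hx : S.testBit x = true) : fam (S ^^^ 2 ^ x) = (fam S).erase x := by
  ext y
  simp only [fam, Finset.mem_filter, Finset.mem_range, Nat.testBit_xor, Finset.mem_erase,
    Nat.testBit_two_pow]
  by_cases h : x = y
  · subst h; simp [hx]
  · simp [h, Ne.symm h]

theorem card_le_hit (F H : Finset ℕ) (hF : ∀ p ∈ F, p < 128 ∧ p % 64 ∈ H)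
    (h : ∀ X ∈ F, ∀ Y ∈ F, X ≠ Y → Rp X Y) : F.card ≤ H.card := by
  refine Finset.card_le_card_of_injOn (fun p => p % 64) (fun p hp => (hF p hp).2) ?_
  intro p hp q hq hpq
  by_contra hne
  have h1 := (hF p hp).1
  have h2 := (hF q hq).1
  simp only at hpq
  rcases lt_or_gt_of_ne hne with hlt | hlt
  · have e : q = p + 64 := by omega
    exact not_Rp_compl p (by omega) (e ▸ h p hp q hq hne)
  · have e : p = q + 64 := by omega
    exact not_Rp_compl q (by omega) (e ▸ h q hq p hp (Ne.symm hne))

theorem card_le_64 (F : Finset ℕ) (hF : ∀ p ∈ F, p < 128)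
    (h : ∀ X ∈ F, ∀ Y ∈ F, X ≠ Y → Rp X Y) : F.card ≤ 64 := by
  have := card_le_hit F (Finset.range 64)
    (fun p hp => ⟨hF p hp, Finset.mem_range.2 (Nat.mod_lt _ (by norm_num))⟩) h
  simpa using this

/-- Every complementary pair is represented. -/
def full (S : ℕ) : Bool := Nat.beq (((S >>> 64) ||| S) % 2 ^ 64) (2 ^ 64 - 1)

theorem full_iff (S : ℕ) :
    full S = true ↔ ∀ i < 64, S.testBit (64 + i) = true ∨ S.testBit i = true := by
  unfold full
  rw [Nat.beq_eq]
  constructor
  · intro h i hi
    have := congrArg (fun n => Nat.testBit n i) h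
    simpa [Nat.testBit_mod_two_pow, Nat.testBit_two_pow_sub_one, hi, Nat.testBit_shiftRight,
      -Nat.reducePow] using this
  · intro h
    apply Nat.eq_of_testBit_eq
    intro i
    rw [Nat.testBit_mod_two_pow, Nat.testBit_two_pow_sub_one, Nat.testBit_or,
      Nat.testBit_shiftRight]
    by_cases hi : i < 64
    · rcases h i hi with h1 | h1 <;> simp [hi, h1]
    · simp [hi]

theorem I_not_full (S : ℕ) (h : ¬ full S = true) : I Rp (fam S) 64 = 0 := by
  rw [full_iff] at h
  push Not at h
  obtain ⟨i, hi, h1, h2⟩ := h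
  unfold I
  rw [Finset.card_eq_zero, Finset.filter_eq_empty_iff]
  intro F hF hP
  obtain ⟨hs, hc⟩ := Finset.mem_powersetCard.1 hF
  have := card_le_hit F ((Finset.range 64).erase i) (fun p hp => by
    have := Finset.mem_filter.1 (hs hp)
    have hp1 := Finset.mem_range.1 this.1
    refine ⟨hp1, Finset.mem_erase.2 ⟨?_, Finset.mem_range.2 (Nat.mod_lt _ (by norm_num))⟩⟩
    intro e
    have : p = i ∨ p = 64 + i := by omega
    rcases this with rfl | rfl
    · exact h2 this.2
    · exact h1 this.2) hP
  rw [Finset.card_erase_of_mem (Finset.mem_range.2 hi), hc] at this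
  simp at this

theorem I_leaf (S : ℕ) (h : full S = true) (hP : ∀ X ∈ fam S, ∀ Y ∈ fam S, X ≠ Y → Rp X Y) :
    I Rp (fam S) 64 = 1 := by
  rw [I_all _ _ _ hP]
  have h1 := card_le_64 (fam S) (fun p hp => Finset.mem_range.1 (Finset.mem_filter.1 hp).1) hP
  have h2 : Finset.range 64 ⊆ (fam S).image (fun p => p % 64) := by
    intro i hi
    have hi' := Finset.mem_range.1 hi
    rcases (full_iff S).1 h i hi' with h3 | h3
    · exact Finset.mem_image.2 ⟨64 + i, Finset.mem_filter.2 ⟨Finset.mem_range.2 (by omega), h3⟩,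
        by omega⟩
    · exact Finset.mem_image.2 ⟨i, Finset.mem_filter.2 ⟨Finset.mem_range.2 (by omega), h3⟩,
        by omega⟩
  have h3 := (Finset.card_le_card h2).trans Finset.card_image_le
  rw [Finset.card_range] at h3
  rw [le_antisymm h1 h3, Nat.choose_self]

theorem I_split (A : Finset ℕ) (hA : ∀ p ∈ A, p < 128) (x : ℕ) (hx : x ∈ A) (h0 : x ≠ 0) :
    I Rp A 64 = I Rp (A.filter (Rp x)) 64 + I Rp (A.erase x) 64 := by
  have hx' : x ∈ A.filter (Rp x) := Finset.mem_filter.2 ⟨hx, Rp_self x (hA x hx) h0⟩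
  have e1 := I_insert Rp Rp_symm (Finset.notMem_erase x A) 63
  have e2 := I_insert Rp Rp_symm (Finset.notMem_erase x (A.filter (Rp x))) 63
  rw [Finset.insert_erase hx] at e1
  rw [Finset.insert_erase hx'] at e2
  have e3 : ((A.filter (Rp x)).erase x).filter (Rp x) = (A.erase x).filter (Rp x) := by
    ext y; simp only [Finset.mem_filter, Finset.mem_erase]; tauto
  have e4 : I Rp ((A.filter (Rp x)).erase x) 64 = 0 := by
    unfold I
    rw [Finset.card_eq_zero, Finset.filter_eq_empty_iff]
    intro F hF hP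
    obtain ⟨hs, hc⟩ := Finset.mem_powersetCard.1 hF
    have hxF : x ∉ F := fun hh => Finset.notMem_erase _ _ (hs hh)
    have := card_le_64 (insert x F) (fun p hp => by
      rcases Finset.mem_insert.1 hp with rfl | hp
      · exact hA _ hx
      · exact hA p (Finset.mem_filter.1 (Finset.mem_of_mem_erase (hs hp))).1) (by
      intro X hX Y hY hne
      rcases Finset.mem_insert.1 hX with rfl | hX'
      · rcases Finset.mem_insert.1 hY with rfl | hY'
        · exact absurd rfl hne
        · exact (Finset.mem_filter.1 (Finset.mem_of_mem_erase (hs hY'))).2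
      · rcases Finset.mem_insert.1 hY with rfl | hY'
        · exact Rp_symm _ _ (Finset.mem_filter.1 (Finset.mem_of_mem_erase (hs hX'))).2
        · exact hP X hX' Y hY' hne)
    rw [Finset.card_insert_of_notMem hxF, hc] at this
    omega
  rw [e3] at e2
  have e1' : I Rp A 64 = I Rp (A.erase x) 64 + I Rp ((A.erase x).filter (Rp x)) 63 := e1
  have e2' : I Rp (A.filter (Rp x)) 64 = I Rp ((A.filter (Rp x)).erase x) 64 +
    I Rp ((A.erase x).filter (Rp x)) 63 := e2
  omega

theorem fam_lt (S : ℕ) : ∀ p ∈ fam S, p < 128 :=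
  fun _ hp => Finset.mem_range.1 (Finset.mem_filter.1 hp).1

theorem fam_split (S x : ℕ) (h0 : 0 ∉ fam S) (hx : x < 128) (hS : S.testBit x = true) :
    I Rp (fam S) 64 = I Rp (fam (S &&& nb x)) 64 + I Rp (fam (S ^^^ 2 ^ x)) 64 := by
  have hxS : x ∈ fam S := Finset.mem_filter.2 ⟨Finset.mem_range.2 hx, hS⟩
  rw [fam_and S x hx, fam_xor S x hS]
  exact I_split _ (fam_lt S) x hxS (fun h => h0 (h ▸ hxS))

/-- Branching count of the intersecting subfamilies of size `64`. -/
def cj : List ℕ → ℕ → ℕ
  | [], S => if full S then 1 else 0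
  | x :: L, S =>
    if full S then (if S.testBit x then cj L (S &&& nb x) + cj L (S ^^^ 2 ^ x) else cj L S) else 0

theorem cj_eq : ∀ (L : List ℕ) (S : ℕ), 0 ∉ fam S → (∀ x ∈ L, x < 128) →
    (∀ u ∈ fam S, ∀ v ∈ fam S, u ≠ v → u ∈ L ∨ v ∈ L ∨ Rp u v) → cj L S = I Rp (fam S) 64 := by
  intro L
  induction L with
  | nil =>
    intro S _ _ h
    rw [cj]
    split_ifs with hf
    · exact (I_leaf S hf (fun u hu v hv hne => by simpa using h u hu v hv hne)).symm
    · exact (I_not_full S hf).symm
  | cons x L ih =>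
    intro S h0 hL h
    have hx : x < 128 := hL x List.mem_cons_self
    have hL' : ∀ y ∈ L, y < 128 := fun y hy => hL y (List.mem_cons_of_mem _ hy)
    rw [cj]
    split_ifs with hf hS
    · have k1 : 0 ∉ fam (S &&& nb x) := by
        rw [fam_and S x hx]; exact fun hh => h0 (Finset.mem_filter.1 hh).1
      have k2 : 0 ∉ fam (S ^^^ 2 ^ x) := by
        rw [fam_xor S x hS]; exact fun hh => h0 (Finset.mem_of_mem_erase hh)
      rw [fam_split S x h0 hx hS, ih _ k1 hL', ih _ k2 hL']
      · rw [fam_xor S x hS]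
        intro u hu v hv hne
        have := h u (Finset.mem_of_mem_erase hu) v (Finset.mem_of_mem_erase hv) hne
        simp only [List.mem_cons, Finset.ne_of_mem_erase hu, Finset.ne_of_mem_erase hv,
          false_or] at this
        exact this
      · rw [fam_and S x hx]
        intro u hu v hv hne
        rw [Finset.mem_filter] at hu hv
        have := h u hu.1 v hv.1 hne
        simp only [List.mem_cons] at this
        rcases this with (rfl | h1) | (rfl | h1) | h1
        · exact Or.inr (Or.inr hv.2)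
        · exact Or.inl h1
        · exact Or.inr (Or.inr (Rp_symm _ _ hu.2))
        · exact Or.inr (Or.inl h1)
        · exact Or.inr (Or.inr h1)
    · refine ih S h0 hL' ?_
      intro u hu v hv hne
      have hux : u ≠ x := fun e => hS (e ▸ (Finset.mem_filter.1 hu).2)
      have hvx : v ≠ x := fun e => hS (e ▸ (Finset.mem_filter.1 hv).2)
      have := h u hu v hv hne
      simpa only [List.mem_cons, hux, hvx, false_or] using this
    · exact (I_not_full S hf).symm

/-- Collect the candidates avoiding point `a`, then count. -/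
def build (S a : ℕ) : List ℕ → List ℕ → ℕ
  | [], acc => cj acc S
  | q :: l, acc =>
    if S.testBit q && !((pos q).testBit a) then build S a l (q :: acc) else build S a l acc

theorem build_eq (S a : ℕ) : ∀ l acc : List ℕ, build S a l acc =
    cj ((l.filter (fun q => S.testBit q && !((pos q).testBit a))).reverse ++ acc) S := by
  intro l
  induction l with
  | nil => intro acc; simp [build]
  | cons q l ih =>
    intro acc
    rw [build, List.filter_cons]
    split_ifs with h
    · rw [ih]; simp
    · rw [ih]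

/-- All indices, by increasing size of the coded set. -/
def ord : List ℕ := [0, 127, 32, 16, 8, 4, 2, 1, 126, 125, 123, 119, 111, 95, 48, 40, 36, 34, 33, 24, 20, 18, 17, 12, 10, 9, 6, 5, 3, 124, 122, 121, 118, 117, 115, 110, 109, 107, 103, 94, 93, 91, 87, 79, 56, 52, 50, 49, 44, 42, 41, 38, 37, 35, 28, 26, 25, 22, 21, 19, 14, 13, 11, 7, 120, 116, 114, 113, 108, 106, 105, 102, 101, 99, 92, 90, 89, 86, 85, 83, 78, 77, 75, 71, 60, 58, 57, 54, 53, 51, 46, 45, 43, 39, 30, 29, 27, 23, 15, 112, 104, 100, 98, 97, 88, 84, 82, 81, 76, 74, 73, 70, 69, 67, 62, 61, 59, 55, 47, 31, 96, 80, 72, 68, 66, 65, 63, 64]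

theorem ord_lt : ∀ q ∈ ord, q < 128 := by decide +kernel

theorem mem_ord : ∀ q < 128, q ∈ ord := by decide +kernel

theorem build_ord (S a : ℕ) (h0 : 0 ∉ fam S) : build S a ord [] = I Rp (fam S) 64 := by
  rw [build_eq, cj_eq _ _ h0]
  · intro x hx
    simp only [List.append_nil, List.mem_reverse, List.mem_filter] at hx
    exact ord_lt x hx.1
  · intro u hu v hv _
    simp only [List.append_nil, List.mem_reverse, List.mem_filter]
    by_cases h1 : (pos u).testBit a = true
    · by_cases h2 : (pos v).testBit a = true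
      · refine Or.inr (Or.inr fun h => ?_)
        have : (pos u &&& pos v).testBit a = true := by rw [Nat.testBit_and, h1, h2]; rfl
        rw [h] at this
        simp at this
      · exact Or.inr (Or.inl ⟨mem_ord v (fam_lt S v hv), by
          simp [(Finset.mem_filter.1 hv).2, h2]⟩)
    · exact Or.inl ⟨mem_ord u (fam_lt S u hu), by simp [(Finset.mem_filter.1 hu).2, h1]⟩

/-- Families with a second pair. -/
def r1 (x : ℕ) : List ℕ → ℕ → ℕ
  | [], _ => 0
  | y :: G, S =>
    if S.testBit y then
      build (S &&& nb y) (Nat.log2 (pos x &&& pos y)) ord [] + r1 x G (S ^^^ 2 ^ y)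
    else r1 x G S

theorem r1_eq (x : ℕ) : ∀ (G : List ℕ) (S : ℕ), 0 ∉ fam S → (∀ y ∈ G, y < 128) →
    I Rp (fam S) 64 = r1 x G S + I Rp (fam S \ G.toFinset) 64 := by
  intro G
  induction G with
  | nil => intro S _ _; simp [r1]
  | cons y G ih =>
    intro S h0 hG
    have hy : y < 128 := hG y List.mem_cons_self
    have hG' : ∀ z ∈ G, z < 128 := fun z hz => hG z (List.mem_cons_of_mem _ hz)
    rw [r1]
    split_ifs with hS
    · have h1 : 0 ∉ fam (S &&& nb y) := by
        rw [fam_and S y hy]; exact fun hh => h0 (Finset.mem_filter.1 hh).1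
      have h2 : 0 ∉ fam (S ^^^ 2 ^ y) := by
        rw [fam_xor S y hS]; exact fun hh => h0 (Finset.mem_of_mem_erase hh)
      rw [fam_split S y h0 hy hS, build_ord _ _ h1, ih _ h2 hG', fam_xor S y hS, add_assoc]
      congr 3
      ext z; simp only [Finset.mem_sdiff, Finset.mem_erase, List.toFinset_cons, Finset.mem_insert]
      tauto
    · rw [ih S h0 hG']
      congr 2
      ext z; simp only [Finset.mem_sdiff, List.toFinset_cons, Finset.mem_insert]
      have : z ∈ fam S → z ≠ y := fun hz e => hS (e ▸ (Finset.mem_filter.1 hz).2)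
      tauto

/-- Families with at least two pairs. -/
def r0 : List ℕ → ℕ → ℕ
  | [], _ => 0
  | x :: G, S => r1 x G (S &&& nb x) + r0 G (S ^^^ 2 ^ x)

theorem r0_eq (T : Finset ℕ) : ∀ (G : List ℕ) (S : ℕ), 0 ∉ fam S → G.Nodup →
    Disjoint G.toFinset T → fam S = G.toFinset ∪ T →
    I Rp (fam S) 64 = r0 G S + (G.map (fun x => I Rp (insert x (T.filter (Rp x))) 64)).sum
      + I Rp T 64 := by
  intro G
  induction G with
  | nil => intro S _ _ _ h; simp [r0, h]
  | cons x G ih =>
    intro S h0 hn hd hS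
    have hxS : x ∈ fam S := by rw [hS]; simp
    have hx : x < 128 := fam_lt S x hxS
    have hb : S.testBit x = true := (Finset.mem_filter.1 hxS).2
    have hxG : x ∉ G := (List.nodup_cons.1 hn).1
    rw [List.toFinset_cons] at hd hS
    have hxT : x ∉ T := (Finset.disjoint_insert_left.1 hd).1
    have hd' : Disjoint G.toFinset T := (Finset.disjoint_insert_left.1 hd).2
    have h1 : 0 ∉ fam (S &&& nb x) := by
      rw [fam_and S x hx]; exact fun hh => h0 (Finset.mem_filter.1 hh).1
    have h2 : 0 ∉ fam (S ^^^ 2 ^ x) := by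
      rw [fam_xor S x hb]; exact fun hh => h0 (Finset.mem_of_mem_erase hh)
    have h3 : fam (S ^^^ 2 ^ x) = G.toFinset ∪ T := by
      rw [fam_xor S x hb, hS, Finset.insert_union, Finset.erase_insert (by simp [hxG, hxT])]
    have h4 : fam (S &&& nb x) \ G.toFinset = insert x (T.filter (Rp x)) := by
      rw [fam_and S x hx, hS]
      ext z
      have hxx := Rp_self x hx (fun h => h0 (h ▸ hxS))
      have hz : z ∈ G.toFinset → z ∉ T := fun hh => Finset.disjoint_left.1 hd' hh
      simp only [Finset.mem_sdiff, Finset.mem_filter, Finset.mem_union, Finset.mem_insert,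
        List.mem_toFinset] at hz ⊢
      constructor
      · tauto
      · rintro (rfl | h5)
        · exact ⟨⟨Or.inl (Or.inl rfl), hxx⟩, hxG⟩
        · exact ⟨⟨Or.inr h5.1, h5.2⟩, fun h6 => hz h6 h5.1⟩
    rw [fam_split S x h0 hx hb, r1_eq x G _ h1 (fun y hy => fam_lt S y (by rw [hS]; simp [hy])),
      ih _ h2 (List.nodup_cons.1 hn).2 hd' h3, h4, r0, List.map_cons, List.sum_cons]
    ring

/-- Mask of the sets with at least three elements. -/
def Tk : ℕ := 0x177f7fff7ffffffffffefee8fee8e880

/-- Indices of the edges of the complete graph on the last five points. -/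
def G1 : List ℕ := [12, 20, 36, 123, 24, 40, 119, 48, 111, 95]

/-- Indices of the edges of the quasi-star with ten edges. -/
def G2 : List ℕ := [126, 34, 125, 36, 123, 40, 119, 48, 111, 95]

/-- Mask of the first family. -/
def S1 : ℕ := 0x1ffffffffffffffffffffff8fff8f880

/-- Mask of the second family. -/
def S2 : ℕ := 0x7ffffffffffffffffffffffcfee8e880

theorem r0_G1 : r0 G1 S1 = 3590 := by decide +kernel

theorem r0_G2 : r0 G2 S2 = 3599 := by decide +kernel

end Pool.Agent.Lib.Helper2.IntCount
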